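import Pool.Agent.Lib.MP_1478a0_ag.Poly

/-! The cube of the elliptic curve `Y ^ 2 Z = X ^ 3 + Z ^ 3` is an abelian variety. -/

namespace Pool.Agent.Lib.MP_1478a0_ag

open Filter Topology WeierstrassCurve WeierstrassCurve.Projective

theorem cube_closure {W η : Type} [TopologicalSpace W] [Fintype η] {q : W → η → ℂ}
    (hq : Continuous q) {D : Set W} {w₀ : W} (hw : w₀ ∈ closure D) {p₀ : η → ℂ}
    (h : ∀ k, p₀ k ^ 3 = q w₀ k) :
    (w₀, p₀) ∈ closure {z : W × (η → ℂ) | z.1 ∈ D ∧ ∀ k, z.2 k ^ 3 = q z.1 k} := by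
  rw [mem_closure_iff_nhds]
  intro N hN
  obtain ⟨U, hU, V, hV, hUV⟩ := mem_nhds_prod_iff.1 hN
  have hop : IsOpenMap (Pi.map fun (_ : η) (z : ℂ) => z ^ 3) :=
    IsOpenMap.piMap (fun _ => (Complex.isOpenQuotientMap_pow 3).isOpenMap) (by simp)
  have h1 : (Pi.map fun (_ : η) (z : ℂ) => z ^ 3) '' V ∈ 𝓝 (q w₀) := by
    have := hop.image_mem_nhds hV
    rwa [show (Pi.map (fun (_ : η) (z : ℂ) => z ^ 3) p₀) = q w₀ from funext h] at this
  obtain ⟨w, ⟨hwU, p, hp, hpq⟩, hwD⟩ :=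
    mem_closure_iff_nhds.1 hw _ (inter_mem hU (hq.continuousAt.preimage_mem_nhds h1))
  exact ⟨(w, p), hUV ⟨hwU, hp⟩, hwD, fun k => congrFun hpq k⟩

theorem irr_affine : Irr {z : ℂ × ℂ | z.2 ^ 2 = z.1 ^ 3 + 1} := by
  refine ⟨⟨(0, 1), by simp⟩, fun f g hf hg hfg => ?_⟩
  have red : ∀ {u : ℂ × ℂ → ℂ}, IsPoly u → ∃ A B : Polynomial ℂ, ∀ x y : ℂ, y ^ 2 = x ^ 3 + 1 →
      u (x, y) = A.eval x + B.eval x * y := by
    intro u hu
    refine poly_induction (p := fun u => ∃ A B : Polynomial ℂ, ∀ x y : ℂ, y ^ 2 = x ^ 3 + 1 →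
      u (x, y) = A.eval x + B.eval x * y) ?_ ?_ ?_ ?_ hu
    · intro l
      refine ⟨Polynomial.C (l (1, 0)) * Polynomial.X, Polynomial.C (l (0, 1)), fun x y _ => ?_⟩
      have : ((x, y) : ℂ × ℂ) = x • (1, 0) + y • (0, 1) := by simp
      rw [this, map_add, map_smul, map_smul]
      simp only [smul_eq_mul, Polynomial.eval_mul, Polynomial.eval_C, Polynomial.eval_X]; ring
    · intro c; exact ⟨Polynomial.C c, 0, fun x y _ => by simp⟩
    · rintro u v _ _ ⟨A, B, h1⟩ ⟨C, D, h2⟩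
      exact ⟨A + C, B + D, fun x y h => by simp only [h1 x y h, h2 x y h, Polynomial.eval_add]; ring⟩
    · rintro u v _ _ ⟨A, B, h1⟩ ⟨C, D, h2⟩
      refine ⟨A * C + B * D * (Polynomial.X ^ 3 + 1), A * D + B * C, fun x y h => ?_⟩
      simp only [h1 x y h, h2 x y h, Polynomial.eval_add, Polynomial.eval_mul, Polynomial.eval_pow,
        Polynomial.eval_X, Polynomial.eval_one]
      linear_combination B.eval x * D.eval x * h
  have nrm : ∀ A B : Polynomial ℂ, A ^ 2 - B ^ 2 * (Polynomial.X ^ 3 + 1) = 0 → A = 0 ∧ B = 0 := by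
    intro A B h
    have hB : B = 0 := by
      by_contra hB
      have h3 : (Polynomial.X ^ 3 + 1 : Polynomial ℂ).natDegree = 3 := by
        simpa using Polynomial.natDegree_X_pow_add_C (n := 3) (r := (1 : ℂ))
      have h4 : (Polynomial.X ^ 3 + 1 : Polynomial ℂ) ≠ 0 := by
        intro h0; rw [h0] at h3; simp at h3
      have := congrArg Polynomial.natDegree (sub_eq_zero.1 h)
      rw [Polynomial.natDegree_mul (pow_ne_zero 2 hB) h4, Polynomial.natDegree_pow,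
        Polynomial.natDegree_pow, h3] at this
      omega
    subst hB
    simpa using h
  obtain ⟨A, B, h1⟩ := red hf
  obtain ⟨C, D, h2⟩ := red hg
  have hz : (A ^ 2 - B ^ 2 * (Polynomial.X ^ 3 + 1)) * (C ^ 2 - D ^ 2 * (Polynomial.X ^ 3 + 1))
      = 0 := by
    refine Polynomial.funext fun x => ?_
    obtain ⟨y, hy⟩ := IsAlgClosed.exists_pow_nat_eq (x ^ 3 + 1) (n := 2) two_pos
    have hy' : (-y) ^ 2 = x ^ 3 + 1 := by rw [neg_sq, hy]
    have e1 := hfg (x, y) hy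
    have e2 := hfg (x, -y) hy'
    rw [h1 x y hy, h2 x y hy] at e1
    rw [h1 x _ hy', h2 x _ hy'] at e2
    simp only [Polynomial.eval_add, Polynomial.eval_mul, Polynomial.eval_pow, Polynomial.eval_sub,
      Polynomial.eval_X, Polynomial.eval_one, Polynomial.eval_zero, ← hy]
    linear_combination (A.eval x - B.eval x * y) * (C.eval x - D.eval x * y) * e1
  rcases mul_eq_zero.1 hz with h | h
  · left; rintro ⟨x, y⟩ hxy
    obtain ⟨rfl, rfl⟩ := nrm A B h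
    simpa using h1 x y hxy
  · right; rintro ⟨x, y⟩ hxy
    obtain ⟨rfl, rfl⟩ := nrm C D h
    simpa using h2 x y hxy

@[fun_prop] theorem IsPoly.vec3 {E : Type} [NormedAddCommGroup E] [NormedSpace ℂ E]
    {f g h : E → ℂ} (hf : IsPoly f) (hg : IsPoly g) (hh : IsPoly h) :
    IsPoly (fun x => (![f x, g x, h x] : Fin 3 → ℂ)) := by
  refine isPoly_pi (f := fun x => (![f x, g x, h x] : Fin 3 → ℂ)) fun i => ?_
  fin_cases i
  · exact hf
  · exact hg
  · exact hh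

/-- The cone over the curve. -/
def Ecurve : Set (Fin 3 → ℂ) := {P | P ≠ 0 ∧ P 1 ^ 2 * P 2 = P 0 ^ 3 + P 2 ^ 3}

theorem irr_Ecurve : Irr Ecurve := by
  refine (irr_affine.prod (irr_univ (E := ℂ))).of_dense
    (Φ := fun z => (![z.2 * z.1.1, z.2 * z.1.2, z.2] : Fin 3 → ℂ)) (by fun_prop)
    (h := fun z => z.2) (by fun_prop) ⟨![0, 1, 0], ?_, by simp⟩ ?_ ?_
  · intro h; simpa using congrFun h 1
  · rintro ⟨⟨x, y⟩, c⟩ ⟨h, -⟩ hc
    refine ⟨fun h0 => hc (by simpa using congrFun h0 2), ?_⟩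
    simp only [Set.mem_ofPred_eq] at h
    simp only [Matrix.cons_val_zero, Matrix.cons_val_one, Matrix.cons_val]
    linear_combination c ^ 3 * h
  · rintro P ⟨-, hP⟩
    have hd : (P 1, P 2) ∈ closure {w : ℂ × ℂ | w.2 ≠ 0} :=
      IsPoly.dense_ne (f := fun w : ℂ × ℂ => w.2) (by fun_prop) (x₀ := (0, 1)) one_ne_zero _
    have := cube_closure (η := Unit) (q := fun (w : ℂ × ℂ) _ => w.1 ^ 2 * w.2 - w.2 ^ 3)
      (by fun_prop) hd (p₀ := fun _ => P 0) (fun _ => by linear_combination -hP)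
    have hc : Continuous fun z : (ℂ × ℂ) × (Unit → ℂ) => (![z.2 (), z.1.1, z.1.2] : Fin 3 → ℂ) := by
      refine IsPoly.continuous_pi ?_; fun_prop
    have h2 := image_closure_subset_closure_image hc ⟨_, this, rfl⟩
    simp only [fin3_def] at h2
    refine closure_mono ?_ h2
    rintro _ ⟨⟨⟨y, z⟩, p⟩, ⟨hz, hp⟩, rfl⟩
    simp only [Set.mem_ofPred_eq] at hz
    have hp := hp ()
    simp only at hp
    refine ⟨((p () / z, y / z), z), ⟨⟨?_, trivial⟩, hz⟩, ?_⟩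
    · simp only [Set.mem_ofPred_eq]; field_simp; linear_combination -hp
    · simp only; congr 1 <;> [field_simp; (congr 1; field_simp)]

/-- The Weierstrass curve. -/
def Wc : Projective ℂ := ⟨0, 0, 0, 0, 1⟩

theorem mem_Ecurve {P : Fin 3 → ℂ} : P ∈ Ecurve ↔ Wc.Nonsingular P := by
  rw [nonsingular_iff, equation_iff]
  simp only [Wc, Ecurve, Set.mem_ofPred_eq]
  constructor
  · rintro ⟨h0, h⟩
    refine ⟨by linear_combination h, ?_⟩
    by_contra hc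
    push Not at hc
    obtain ⟨h1, h2, h3⟩ := hc
    have hx : P 0 = 0 := by
      have : P 0 ^ 2 = 0 := by linear_combination -h1 / 3
      exact pow_eq_zero_iff two_ne_zero |>.1 this
    have hz : P 2 = 0 := by
      have : P 2 ^ 3 = 0 := by rw [hx] at h; linear_combination (h - P 2 * h3) / 2
      exact pow_eq_zero_iff three_ne_zero |>.1 this
    have hy : P 1 = 0 := by
      have : P 1 ^ 2 = 0 := by rw [hz] at h3; linear_combination h3
      exact pow_eq_zero_iff two_ne_zero |>.1 this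
    exact h0 (by funext i; fin_cases i <;> assumption)
  · rintro ⟨h, h'⟩
    refine ⟨?_, by linear_combination h⟩
    rintro rfl
    simp at h'

theorem equiv_iff_smul {P Q : Fin 3 → ℂ} : P ≈ Q ↔ ∃ c : ℂ, c ≠ 0 ∧ Q = c • P := by
  constructor
  · intro h
    obtain ⟨u, hu⟩ := Setoid.symm h
    exact ⟨u, u.ne_zero, hu.symm⟩
  · rintro ⟨c, hc, rfl⟩
    exact Setoid.symm (smul_equiv P (IsUnit.mk0 c hc))

theorem not_equiv_of_minor {P Q : Fin 3 → ℂ} {i j : Fin 3} (h : P i * Q j - P j * Q i ≠ 0) :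
    ¬P ≈ Q := by
  intro hPQ
  obtain ⟨c, -, rfl⟩ := equiv_iff_smul.1 hPQ
  apply h; simp only [Pi.smul_apply, smul_eq_mul]; ring

theorem exists_minor {P Q : Fin 3 → ℂ} (hP : P ≠ 0) (hQ : Q ≠ 0) (h : ¬P ≈ Q) :
    ∃ i j, P i * Q j - P j * Q i ≠ 0 := by
  by_contra hc
  push Not at hc
  obtain ⟨i, hi⟩ := Function.ne_iff.1 hP
  simp only [Pi.zero_apply] at hi
  have h1 : Q = (Q i / P i) • P := by
    funext j; simp only [Pi.smul_apply, smul_eq_mul]; field_simp; linear_combination hc i j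
  refine h (equiv_iff_smul.2 ⟨Q i / P i, ?_, h1⟩)
  intro h0; rw [h0, zero_smul] at h1; exact hQ h1

open scoped Classical in
/-- The point represented by a vector. -/
noncomputable def pt (P : Fin 3 → ℂ) : Wc.Point :=
  if h : Wc.Nonsingular P then ⟨(nonsingularLift_iff P).2 h⟩ else 0

theorem pt_point {P : Fin 3 → ℂ} (h : P ∈ Ecurve) : (pt P).point = ⟦P⟧ := by
  rw [pt, dif_pos (mem_Ecurve.1 h)]

theorem pt_eq_iff {P Q : Fin 3 → ℂ} (hP : P ∈ Ecurve) (hQ : Q ∈ Ecurve) : pt P = pt Q ↔ P ≈ Q := by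
  rw [Point.ext_iff, pt_point hP, pt_point hQ]; exact Quotient.eq

theorem add_mem {P Q : Fin 3 → ℂ} (hP : P ∈ Ecurve) (hQ : Q ∈ Ecurve) : Wc.add P Q ∈ Ecurve :=
  mem_Ecurve.2 (nonsingular_add (mem_Ecurve.1 hP) (mem_Ecurve.1 hQ))

theorem neg_mem {P : Fin 3 → ℂ} (hP : P ∈ Ecurve) : Wc.neg P ∈ Ecurve :=
  mem_Ecurve.2 (nonsingular_neg (mem_Ecurve.1 hP))

theorem pt_add {P Q : Fin 3 → ℂ} (hP : P ∈ Ecurve) (hQ : Q ∈ Ecurve) :
    pt (Wc.add P Q) = pt P + pt Q := by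
  rw [Point.ext_iff, Point.add_point, pt_point hP, pt_point hQ, pt_point (add_mem hP hQ), addMap_eq]

theorem pt_neg {P : Fin 3 → ℂ} (hP : P ∈ Ecurve) : pt (Wc.neg P) = -pt P := by
  rw [Point.ext_iff, Point.neg_point, pt_point hP, pt_point (neg_mem hP), negMap_eq]

theorem pt_surj (g : Wc.Point) : ∃ P ∈ Ecurve, pt P = g := by
  obtain ⟨P, hP⟩ := Quotient.exists_rep g.point
  have : P ∈ Ecurve := mem_Ecurve.2 ((nonsingularLift_iff P).1 (by rw [hP]; exact g.nonsingular))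
  exact ⟨P, this, by rw [Point.ext_iff, pt_point this, hP]⟩

@[fun_prop] theorem IsPoly.addXYZ {E : Type} [NormedAddCommGroup E] [NormedSpace ℂ E]
    {f g : E → Fin 3 → ℂ} (hf : IsPoly f) (hg : IsPoly g) :
    IsPoly (fun x => Wc.addXYZ (f x) (g x)) := by
  simp only [Projective.addXYZ, addX, addY, negY_eq, negAddY, addZ]
  fun_prop

theorem exists_aux (p : Wc.Point) : ∃ R ∈ Ecurve, p ≠ pt R ∧ p ≠ -pt R ∧ pt R ≠ -pt R := by
  have h1 : (![0, 1, 1] : Fin 3 → ℂ) ∈ Ecurve := ⟨fun h => by simpa using congrFun h 1, by simp⟩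
  have h2 : (![2, 3, 1] : Fin 3 → ℂ) ∈ Ecurve :=
    ⟨fun h => by simpa using congrFun h 2, by simp; norm_num⟩
  have e1 : pt ![0, 1, 1] ≠ -pt ![0, 1, 1] := by
    rw [← pt_neg h1, Ne, pt_eq_iff h1 (neg_mem h1)]
    refine not_equiv_of_minor (i := 1) (j := 2) ?_
    simp [Projective.neg, negY, Wc]
  have e2 : pt ![2, 3, 1] ≠ -pt ![2, 3, 1] := by
    rw [← pt_neg h2, Ne, pt_eq_iff h2 (neg_mem h2)]
    refine not_equiv_of_minor (i := 1) (j := 2) ?_
    simp [Projective.neg, negY, Wc]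
  have e3 : pt ![0, 1, 1] ≠ pt ![2, 3, 1] := by
    rw [Ne, pt_eq_iff h1 h2]
    refine not_equiv_of_minor (i := 0) (j := 2) ?_
    simp
  have e4 : pt ![0, 1, 1] ≠ -pt ![2, 3, 1] := by
    rw [← pt_neg h2, Ne, pt_eq_iff h1 (neg_mem h2)]
    refine not_equiv_of_minor (i := 0) (j := 2) ?_
    simp [Projective.neg]
  by_cases hp : p = pt ![0, 1, 1]
  · exact ⟨_, h2, hp ▸ e3, hp ▸ e4, e2⟩
  by_cases hp' : p = -pt ![0, 1, 1]
  · refine ⟨_, h2, ?_, ?_, e2⟩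
    · rw [hp']; intro h; exact e4 (by rw [← h, neg_neg])
    · rw [hp']; intro h; exact e3 (neg_injective h)
  exact ⟨_, h1, hp, hp', e1⟩

theorem add_local {P₀ Q₀ : Fin 3 → ℂ} (hP : P₀ ∈ Ecurve) (hQ : Q₀ ∈ Ecurve) :
    ∃ (h : (Fin 3 → ℂ) × (Fin 3 → ℂ) → ℂ) (Φ : (Fin 3 → ℂ) × (Fin 3 → ℂ) → Fin 3 → ℂ),
      IsPoly h ∧ IsPoly Φ ∧ h (P₀, Q₀) ≠ 0 ∧
      ∀ P ∈ Ecurve, ∀ Q ∈ Ecurve, h (P, Q) ≠ 0 → Wc.add P Q ≈ Φ (P, Q) := by
  by_cases hPQ : P₀ ≈ Q₀
  · obtain ⟨R, hR, e1, e2, e3⟩ := exists_aux (pt P₀)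
    have hR' := neg_mem hR
    have hq : pt P₀ = pt Q₀ := (pt_eq_iff hP hQ).2 hPQ
    have n1 : ¬P₀ ≈ R := fun h => e1 ((pt_eq_iff hP hR).2 h)
    have n2 : ¬Q₀ ≈ Wc.neg R := fun h => e2 (by rw [hq, (pt_eq_iff hQ hR').2 h, pt_neg hR])
    have n3 : ¬Wc.addXYZ P₀ R ≈ Wc.addXYZ Q₀ (Wc.neg R) := by
      rw [← add_of_not_equiv n1, ← add_of_not_equiv n2,
        ← pt_eq_iff (add_mem hP hR) (add_mem hQ hR'), pt_add hP hR, pt_add hQ hR', pt_neg hR, hq]
      intro h; exact e3 (add_left_cancel h)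
    obtain ⟨i₁, j₁, m1⟩ := exists_minor hP.1 hR.1 n1
    obtain ⟨i₂, j₂, m2⟩ := exists_minor hQ.1 hR'.1 n2
    obtain ⟨i₃, j₃, m3⟩ := exists_minor (by rw [← add_of_not_equiv n1]; exact (add_mem hP hR).1)
      (by rw [← add_of_not_equiv n2]; exact (add_mem hQ hR').1) n3
    refine ⟨fun z => (z.1 i₁ * R j₁ - z.1 j₁ * R i₁) * (z.2 i₂ * Wc.neg R j₂ - z.2 j₂ * Wc.neg R i₂) *
      (Wc.addXYZ z.1 R i₃ * Wc.addXYZ z.2 (Wc.neg R) j₃
        - Wc.addXYZ z.1 R j₃ * Wc.addXYZ z.2 (Wc.neg R) i₃),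
      fun z => Wc.addXYZ (Wc.addXYZ z.1 R) (Wc.addXYZ z.2 (Wc.neg R)), by fun_prop, by fun_prop,
      mul_ne_zero (mul_ne_zero m1 m2) m3, fun P hP Q hQ h => ?_⟩
    simp only [mul_ne_zero_iff] at h
    obtain ⟨⟨k1, k2⟩, k3⟩ := h
    have k1 := not_equiv_of_minor k1
    have k2 := not_equiv_of_minor k2
    have k3 := not_equiv_of_minor k3
    simp only
    rw [← add_of_not_equiv k3, ← add_of_not_equiv k1, ← add_of_not_equiv k2,
      ← pt_eq_iff (add_mem hP hQ) (add_mem (add_mem hP hR) (add_mem hQ hR')),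
      pt_add (add_mem hP hR) (add_mem hQ hR'), pt_add hP hQ, pt_add hP hR, pt_add hQ hR', pt_neg hR]
    abel
  · obtain ⟨i, j, m⟩ := exists_minor hP.1 hQ.1 hPQ
    refine ⟨fun z => z.1 i * z.2 j - z.1 j * z.2 i, fun z => Wc.addXYZ z.1 z.2, by fun_prop,
      by fun_prop, m, fun P _ Q _ h => ?_⟩
    rw [add_of_not_equiv (not_equiv_of_minor h)]

/-- The cube of the curve. -/
def Acube : Set (Fin 3 × Fin 3 → ℂ) := {x | ∀ i, (fun k => x (i, k)) ∈ Ecurve}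

theorem same_fst_iff {x y : Fin 3 × Fin 3 → ℂ} :
    Same Prod.fst x y ↔ ∀ i, (fun k => x (i, k)) ≈ fun k => y (i, k) := by
  simp only [equiv_iff_smul]
  constructor
  · rintro ⟨c, hc, rfl⟩ i
    exact ⟨c i, hc i, rfl⟩
  · intro h
    choose c hc h using h
    exact ⟨c, hc, funext fun ⟨i, k⟩ => congrFun (h i) k⟩

theorem same_sum {ι κ ι' κ' : Type} {b : ι → κ} {b' : ι' → κ'} {x y : ι ⊕ ι' → ℂ} :
    Same (Sum.map b b') x y ↔
      Same b (x ∘ Sum.inl) (y ∘ Sum.inl) ∧ Same b' (x ∘ Sum.inr) (y ∘ Sum.inr) := by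
  constructor
  · rintro ⟨c, hc, rfl⟩
    exact ⟨⟨c ∘ Sum.inl, fun _ => hc _, rfl⟩, ⟨c ∘ Sum.inr, fun _ => hc _, rfl⟩⟩
  · rintro ⟨⟨c, hc, h⟩, ⟨d, hd, h'⟩⟩
    refine ⟨Sum.elim c d, by rintro (k | k) <;> simp [hc, hd], ?_⟩
    funext i
    rcases i with i | i
    · exact congrFun h i
    · exact congrFun h' i

theorem Ecurve_equiv {P Q : Fin 3 → ℂ} (hP : P ∈ Ecurve) (h : P ≈ Q) : Q ∈ Ecurve :=
  mem_Ecurve.2 ((nonsingular_of_equiv h).1 (mem_Ecurve.1 hP))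

theorem irr_Acube : Irr Acube := by
  have := ((irr_Ecurve.prod irr_Ecurve).prod irr_Ecurve).image
    (Φ := fun z (j : Fin 3 × Fin 3) => (![z.1.1 j.2, z.1.2 j.2, z.2 j.2] : Fin 3 → ℂ) j.1)
    (by fun_prop)
  have e : Acube = (fun z (j : Fin 3 × Fin 3) =>
      (![z.1.1 j.2, z.1.2 j.2, z.2 j.2] : Fin 3 → ℂ) j.1) '' ((Ecurve ×ˢ Ecurve) ×ˢ Ecurve) := by
    ext x
    constructor
    · intro hx
      refine ⟨((fun k => x (0, k), fun k => x (1, k)), fun k => x (2, k)), ⟨⟨hx 0, hx 1⟩, hx 2⟩, ?_⟩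
      funext ⟨i, k⟩; fin_cases i <;> rfl
    · rintro ⟨⟨⟨P, Q⟩, R⟩, ⟨⟨hP, hQ⟩, hR⟩, rfl⟩ i
      fin_cases i
      · exact hP
      · exact hQ
      · exact hR
  rwa [e]

theorem mem_cone_fst {x : Fin 3 × Fin 3 → ℂ} :
    x ∈ cone Prod.fst ↔ ∀ i, (fun k => x (i, k)) ≠ 0 := by
  constructor
  · intro h i h0
    obtain ⟨⟨j, k⟩, rfl, hk⟩ := h i
    exact hk (congrFun h0 k)
  · intro h i
    obtain ⟨k, hk⟩ := Function.ne_iff.1 (h i)
    exact ⟨(i, k), rfl, hk⟩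

theorem closed_Acube : Closed Prod.fst Acube := by
  refine closed_of (fun x hx y hxy i => Ecurve_equiv (hx i) (same_fst_iff.1 hxy i))
    (fun x hx => mem_cone_fst.2 fun i => (hx i).1) fun y hy H i => ⟨mem_cone_fst.1 hy i, ?_⟩
  have := H (fun x => x (i, 1) ^ 2 * x (i, 2) - (x (i, 0) ^ 3 + x (i, 2) ^ 3)) (by fun_prop)
    fun x hx => sub_eq_zero.2 (hx i).2
  exact sub_eq_zero.1 this

theorem abelian_Acube : Abelian Prod.fst Acube := by
  refine ⟨⟨closed_Acube, irr_Acube.isPrime⟩, Fin 3 → Wc.Point, inferInstance,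
    fun x i => pt fun k => x (i, k),
    fun z j => Wc.add (fun k => z (Sum.inl (j.1, k))) (fun k => z (Sum.inr (j.1, k))) j.2,
    fun x j => Wc.neg (fun k => x (j.1, k)) j.2, ?_, ?_, ?_, ?_, ?_, ?_⟩
  · intro g _
    choose P hP hg using fun i => pt_surj (g i)
    exact ⟨fun j => P j.1 j.2, hP, funext hg⟩
  · intro x hx y hy
    rw [same_fst_iff, funext_iff]
    exact forall_congr' fun i => pt_eq_iff (hx i) (hy i)
  · refine regular_of ?_ ?_
    · intro x _ y _ hxy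
      obtain ⟨h1, h2⟩ := same_sum.1 hxy
      exact same_fst_iff.2 fun i => add_equiv (same_fst_iff.1 h1 i) (same_fst_iff.1 h2 i)
    · rintro z₀ ⟨h1, h2⟩
      choose h Φ hh hΦ h0 H using fun i => add_local (h1 i) (h2 i)
      refine ⟨fun z => ∏ i, h i (fun k => z (Sum.inl (i, k)), fun k => z (Sum.inr (i, k))),
        fun z j => Φ j.1 (fun k => z (Sum.inl (j.1, k)), fun k => z (Sum.inr (j.1, k))) j.2,
        by fun_prop, by fun_prop, Finset.prod_ne_zero_iff.2 fun i _ => h0 i, ?_⟩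
      rintro z ⟨k1, k2⟩ hz
      exact same_fst_iff.2 fun i => H i _ (k1 i) _ (k2 i) (Finset.prod_ne_zero_iff.1 hz i (by simp))
  · refine regular_of ?_ ?_
    · intro x _ y _ hxy
      exact same_fst_iff.2 fun i => neg_equiv (same_fst_iff.1 hxy i)
    · intro x₀ _
      refine ⟨fun _ => 1, fun x j => Wc.neg (fun k => x (j.1, k)) j.2, by fun_prop, ?_, one_ne_zero,
        fun x _ _ => Same.refl _ _⟩
      simp only [Projective.neg, negY]
      fun_prop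
  · intro x hx y hy
    refine ⟨fun i => add_mem (hx i) (hy i), funext fun i => ?_⟩
    have := pt_add (hx i) (hy i)
    rw [Pi.add_apply, ← this]
    simp only [Sum.elim_inl, Sum.elim_inr]
  · intro x hx
    refine ⟨fun i => neg_mem (hx i), funext fun i => ?_⟩
    have := pt_neg (hx i)
    rw [Pi.neg_apply, ← this]

end Pool.Agent.Lib.MP_1478a0_ag
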