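import Mathlib

/-!
Projective varieties are handled through their multi-cones.  A map `b : ι → κ` of finite types
groups the coordinates `ι` into blocks `κ`; the ambient space is the product over `k : κ` of the
projective spaces with homogeneous coordinates `b ⁻¹' {k}`, and a subset of it is represented by
its preimage in the set of vectors `x : ι → ℂ` none of whose blocks vanishes.
-/

namespace Pool.Agent.Lib.MP_1478a0_ag

open MvPolynomial Filter Topology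

variable {ι κ ι' κ' : Type}

/-- Multiply block `k` of the vector `x` by `c k`. -/
def scale (b : ι → κ) (c : κ → ℂ) (x : ι → ℂ) : ι → ℂ := fun i => c (b i) * x i

/-- `x` and `y` represent the same point of the product of projective spaces. -/
def Same (b : ι → κ) (x y : ι → ℂ) : Prop :=
  ∃ c : κ → ℂ, (∀ k, c k ≠ 0) ∧ y = scale b c x

/-- `X` is the cone over a Zariski closed subset of the product of projective spaces. -/
def Closed (b : ι → κ) (X : Set (ι → ℂ)) : Prop :=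
  (∀ x ∈ X, ∀ y, Same b x y → y ∈ X) ∧
    ∃ I : Ideal (MvPolynomial ι ℂ), X = {x | ∀ k, ∃ i, b i = k ∧ x i ≠ 0} ∩ zeroLocus ℂ I

/-- `X` is the cone over an irreducible projective variety. -/
def Variety (b : ι → κ) (X : Set (ι → ℂ)) : Prop :=
  Closed b X ∧ (vanishingIdeal ℂ X).IsPrime

/-- Near `x`, the set `X` is an `n`-dimensional complex submanifold: the zero set of a holomorphic
submersion. -/
def SmoothAt [Fintype ι] (X : Set (ι → ℂ)) (x : ι → ℂ) (n : ℕ) : Prop :=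
  ∃ (c : ℕ) (F : (ι → ℂ) → Fin c → ℂ), n + c = Fintype.card ι ∧ AnalyticAt ℂ F x ∧
    Function.Surjective (fderiv ℂ F x) ∧ ∀ᶠ y in 𝓝 x, y ∈ X ↔ F y = 0

/-- `f` represents a morphism from the locally closed set `U` to a product of projective spaces:
it respects `Same` and is Zariski locally given by polynomials. -/
def Regular (b : ι → κ) (b' : ι' → κ') (U : Set (ι → ℂ)) (f : (ι → ℂ) → ι' → ℂ) : Prop :=
  (∀ x ∈ U, ∀ y ∈ U, Same b x y → Same b' (f x) (f y)) ∧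
    ∀ x₀ ∈ U, ∃ (h : MvPolynomial ι ℂ) (P : ι' → MvPolynomial ι ℂ), eval x₀ h ≠ 0 ∧
      ∀ x ∈ U, eval x h ≠ 0 → Same b' (f x) fun j => eval x (P j)

/-- `X` and `Y` have isomorphic nonempty Zariski open subsets. -/
def Birational (b : ι → κ) (X : Set (ι → ℂ)) (b' : ι' → κ') (Y : Set (ι' → ℂ)) : Prop :=
  ∃ (U : Set (ι → ℂ)) (V : Set (ι' → ℂ)) (f : (ι → ℂ) → ι' → ℂ) (g : (ι' → ℂ) → ι → ℂ),
    U.Nonempty ∧ U ⊆ X ∧ Closed b (X \ U) ∧ V ⊆ Y ∧ Closed b' (Y \ V) ∧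
    Set.MapsTo f U V ∧ Set.MapsTo g V U ∧ Regular b b' U f ∧ Regular b' b V g ∧
    (∀ x ∈ U, Same b (g (f x)) x) ∧ ∀ y ∈ V, Same b' (f (g y)) y

/-- An abelian variety: a projective variety whose points form a group `G` (through `π`) with
addition and inversion given by morphisms `m` and `n`. -/
def Abelian (b : ι → κ) (A : Set (ι → ℂ)) : Prop :=
  Variety b A ∧ ∃ (G : Type) (_ : AddCommGroup G) (π : (ι → ℂ) → G)
    (m : (ι ⊕ ι → ℂ) → ι → ℂ) (n : (ι → ℂ) → ι → ℂ),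
    Set.SurjOn π A Set.univ ∧ (∀ x ∈ A, ∀ y ∈ A, π x = π y ↔ Same b x y) ∧
    Regular (Sum.map b b) b {z | z ∘ Sum.inl ∈ A ∧ z ∘ Sum.inr ∈ A} m ∧ Regular b b A n ∧
    (∀ x ∈ A, ∀ y ∈ A, m (Sum.elim x y) ∈ A ∧ π (m (Sum.elim x y)) = π x + π y) ∧
    ∀ x ∈ A, n x ∈ A ∧ π (n x) = -π x

/-- `X` is torically chain connected: there is a covering family with graph `C ⊆ X × T`, all of
whose members have pure dimension `d`, whose general member is a variety birational to an abelian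
variety, and such that two general points of `X` are joined by a chain of irreducible members. -/
def ToricChain [Fintype ι] [Fintype κ] (b : ι → κ) (X : Set (ι → ℂ)) : Prop :=
  ∃ (ι' κ' : Type) (_ : Fintype ι') (_ : Fintype κ') (b' : ι' → κ') (T : Set (ι' → ℂ))
    (C : Set (ι ⊕ ι' → ℂ)) (d : ℕ) (M : (ι' → ℂ) → Set (ι → ℂ)),
    Variety b' T ∧ Variety (Sum.map b b') C ∧ (∀ z ∈ C, z ∘ Sum.inl ∈ X ∧ z ∘ Sum.inr ∈ T) ∧
    (∀ t, M t = {x | Sum.elim x t ∈ C}) ∧ (∀ x ∈ X, ∃ t, x ∈ M t) ∧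
    (∀ t ∈ T, (M t).Nonempty ∧
      M t ⊆ closure {x ∈ M t | SmoothAt (M t) x (d + Fintype.card κ)}) ∧
    (∃ h : MvPolynomial ι' ℂ, (∃ t ∈ T, eval t h ≠ 0) ∧ ∀ t ∈ T, eval t h ≠ 0 →
      Variety b (M t) ∧ ∃ (ι'' κ'' : Type) (_ : Fintype ι'') (_ : Fintype κ'') (b'' : ι'' → κ'')
        (A : Set (ι'' → ℂ)), Abelian b'' A ∧ Birational b (M t) b'' A) ∧
    ∃ h : MvPolynomial ι ℂ, (∃ x ∈ X, eval x h ≠ 0) ∧
      ∀ x ∈ X, ∀ y ∈ X, eval x h ≠ 0 → eval y h ≠ 0 →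
        Relation.ReflTransGen (fun u v => ∃ t ∈ T, Variety b (M t) ∧ u ∈ M t ∧ v ∈ M t) x y

/-- A holomorphic `p`-form on the projective manifold with cone `X`, given by its pull-back to the
cone: a horizontal, scaling invariant family of alternating forms on the tangent spaces which is
locally the restriction of a holomorphic form on the ambient space. -/
def Form [Fintype ι] (b : ι → κ) (X : Set (ι → ℂ)) (p : ℕ)
    (ω : (ι → ℂ) → (ι → ℂ) [⋀^Fin p]→ₗ[ℂ] ℂ) : Prop :=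
  (∀ x ∈ X, ∀ v : Fin p → ι → ℂ, (∀ j, v j ∈ tangentConeAt ℂ X x) → ∀ c : κ → ℂ,
    ((∃ j, v j = scale b c x) → ω x v = 0) ∧
    ((∀ k, c k ≠ 0) → ω (scale b c x) (fun j => scale b c (v j)) = ω x v)) ∧
  ∀ x₀ ∈ X, ∃ η : (ι → ℂ) → (ι → ℂ) [⋀^Fin p]→ₗ[ℂ] ℂ,
    (∀ v, AnalyticAt ℂ (fun x => η x v) x₀) ∧
    ∀ᶠ x in 𝓝 x₀, x ∈ X → ∀ v, (∀ j, v j ∈ tangentConeAt ℂ X x) → η x v = ω x v

end Pool.Agent.Lib.MP_1478a0_ag
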