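import Pool.Agent.Lib.MP_1478a0_ag.Forms
import Pool.Agent.Lib.MP_1478a0_ag.Abelian

/-! The covering family. -/

namespace Pool.Agent.Lib.MP_1478a0_ag

open Filter Topology Module

/-- The product of three diagonal plane cubics. -/
def Ydiag (co : Fin 3 × Fin 3 → ℂ) : Set (Fin 3 × Fin 3 → ℂ) :=
  {p | ∀ i, (∃ k, p (i, k) ≠ 0) ∧ ∑ k, co (i, k) * p (i, k) ^ 3 = 0}

theorem exists_L {co : Fin 3 × Fin 3 → ℂ} (hco : ∀ j, co j ≠ 0) :
    ∃ Lf Lg : (Fin 3 × Fin 3 → ℂ) → Fin 3 × Fin 3 → ℂ, IsPoly Lf ∧ IsPoly Lg ∧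
      (∀ p, Lg (Lf p) = p) ∧ (∀ w, Lf (Lg w) = w) ∧
      (∀ (c : Fin 3 → ℂ) p, Lf (fun j => c j.1 * p j) = fun j => c j.1 * Lf p j) ∧
      (∀ (c : Fin 3 → ℂ) p, Lg (fun j => c j.1 * p j) = fun j => c j.1 * Lg p j) ∧
      ∀ p, p ∈ Ydiag co ↔ Lf p ∈ Acube := by
  choose ρ hρ using fun j => IsAlgClosed.exists_pow_nat_eq (co j) (n := 3) three_pos
  have hρ0 : ∀ j, ρ j ≠ 0 := fun j h => hco j (by rw [← hρ, h]; simp)
  obtain ⟨γ, hγ⟩ := IsAlgClosed.exists_pow_nat_eq (4 : ℂ) (n := 3) three_pos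
  obtain ⟨δ, hδ⟩ := IsAlgClosed.exists_pow_nat_eq (-3 : ℂ) (n := 2) two_pos
  have hγ0 : γ ≠ 0 := fun h => by rw [h] at hγ; norm_num at hγ
  have hδ0 : δ ≠ 0 := fun h => by rw [h] at hδ; norm_num at hδ
  refine ⟨fun p j => (![γ * ρ (j.1, 2) * p (j.1, 2),
      δ * (ρ (j.1, 0) * p (j.1, 0) - ρ (j.1, 1) * p (j.1, 1)),
      ρ (j.1, 0) * p (j.1, 0) + ρ (j.1, 1) * p (j.1, 1)] : Fin 3 → ℂ) j.2,
    fun w j => (![(w (j.1, 2) + w (j.1, 1) / δ) / (2 * ρ (j.1, 0)),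
      (w (j.1, 2) - w (j.1, 1) / δ) / (2 * ρ (j.1, 1)), w (j.1, 0) / (γ * ρ (j.1, 2))] : Fin 3 → ℂ) j.2,
    by fun_prop, by fun_prop, ?_, ?_, ?_, ?_, ?_⟩
  · intro p
    funext ⟨i, k⟩
    have h0 := hρ0 (i, 0)
    have h1 := hρ0 (i, 1)
    have h2 := hρ0 (i, 2)
    fin_cases k <;> simp <;> field_simp <;> ring
  · intro p
    funext ⟨i, k⟩
    have h0 := hρ0 (i, 0)
    have h1 := hρ0 (i, 1)
    have h2 := hρ0 (i, 2)
    fin_cases k <;> simp <;> field_simp <;> ring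
  · intro c p
    funext ⟨i, k⟩
    fin_cases k <;> simp <;> ring
  · intro c p
    funext ⟨i, k⟩
    fin_cases k <;> simp <;> ring
  · intro p
    refine forall_congr' fun i => and_congr ?_ ?_
    · rw [← not_iff_not]
      push Not
      constructor
      · intro h; funext k; fin_cases k <;> simp [h]
      · intro h
        have k0 : γ * ρ (i, 2) * p (i, 2) = 0 := congrFun h 0
        have k1 : δ * (ρ (i, 0) * p (i, 0) - ρ (i, 1) * p (i, 1)) = 0 := congrFun h 1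
        have k2 : ρ (i, 0) * p (i, 0) + ρ (i, 1) * p (i, 1) = 0 := congrFun h 2
        have k3 := (mul_eq_zero.1 k1).resolve_left hδ0
        have k4 : ρ (i, 0) * p (i, 0) = 0 := by linear_combination (k2 + k3) / 2
        have k5 : ρ (i, 1) * p (i, 1) = 0 := by linear_combination (k2 - k3) / 2
        intro k
        fin_cases k
        · exact (mul_eq_zero.1 k4).resolve_left (hρ0 (i, 0))
        · exact (mul_eq_zero.1 k5).resolve_left (hρ0 (i, 1))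
        · exact (mul_eq_zero.1 k0).resolve_left (mul_ne_zero hγ0 (hρ0 (i, 2)))
    · change _ ↔ (δ * (ρ (i, 0) * p (i, 0) - ρ (i, 1) * p (i, 1))) ^ 2
        * (ρ (i, 0) * p (i, 0) + ρ (i, 1) * p (i, 1)) = (γ * ρ (i, 2) * p (i, 2)) ^ 3
          + (ρ (i, 0) * p (i, 0) + ρ (i, 1) * p (i, 1)) ^ 3
      simp only [Fin.sum_univ_three, ← hρ, mul_pow, hγ, hδ]
      constructor
      · intro h; linear_combination -4 * h
      · intro h; linear_combination -h / 4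

theorem irr_Ydiag {co : Fin 3 × Fin 3 → ℂ} (hco : ∀ j, co j ≠ 0) : Irr (Ydiag co) := by
  obtain ⟨Lf, Lg, -, hg, h1, h2, -, -, h3⟩ := exists_L hco
  have : Ydiag co = Lg '' Acube := by
    ext p
    constructor
    · intro hp; exact ⟨Lf p, (h3 p).1 hp, h1 p⟩
    · rintro ⟨w, hw, rfl⟩; exact (h3 _).2 (by rwa [h2])
  rw [this]; exact irr_Acube.image hg

noncomputable def co (t : Fin 2 → ℂ) (j : Fin 3 × Fin 3) : ℂ := t 1 - t 0 * cc j.1 j.2

theorem sum_co (t i) (p : Fin 3 × Fin 3 → ℂ) :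
    ∑ k, co t (i, k) * p (i, k) ^ 3 = t 1 * uu i 0 p - t 0 * uu i 1 p := by
  simp only [co, uu, Fin.sum_univ_three, Fin.val_zero, pow_zero, Fin.val_one, pow_one]; ring

def Tt : Set (Fin 2 → ℂ) := {t | t ≠ 0}

def bT : Fin 2 → Unit := fun _ => ()

def Cc : Set (Io ⊕ Fin 2 → ℂ) :=
  {w | (w ∘ Sum.inl ∈ Xx ∧ w ∘ Sum.inr ∈ Tt) ∧ ∀ i, w (Sum.inr 1) * uu i 0 (pI (w ∘ Sum.inl))
    - w (Sum.inr 0) * uu i 1 (pI (w ∘ Sum.inl)) = 0}

def Mm (t : Fin 2 → ℂ) : Set (Io → ℂ) := {x | Sum.elim x t ∈ Cc}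

theorem mem_Mm {t x} : x ∈ Mm t ↔
    (x ∈ Xx ∧ t ≠ 0) ∧ ∀ i, t 1 * uu i 0 (pI x) - t 0 * uu i 1 (pI x) = 0 := Iff.rfl

theorem phi_mem_Mm {t z} (hz : z ∈ Zz) (ht : t ≠ 0) :
    phi z ∈ Mm t ↔ t 1 * sS z 0 - t 0 * sS z 1 = 0 := by
  rw [mem_Mm]
  simp only [pI_phi, eqn_iff.1 hz.2]
  constructor
  · rintro ⟨-, h⟩
    obtain ⟨i, hi⟩ := hz.1.1
    apply mul_left_cancel₀ hi
    linear_combination h i
  · intro h
    exact ⟨⟨⟨z, hz, rfl⟩, ht⟩, fun i => by linear_combination aA z i * h⟩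

theorem exists_r {t s : Fin 2 → ℂ} (ht : t ≠ 0) (h : t 1 * s 0 - t 0 * s 1 = 0) :
    ∃ r : ℂ, s = r • t := by
  by_cases h0 : t 0 = 0
  · have h1 : t 1 ≠ 0 := fun h1 => ht (by funext e; fin_cases e <;> assumption)
    refine ⟨s 1 / t 1, funext fun e => ?_⟩
    fin_cases e
    · change s 0 = s 1 / t 1 * t 0
      field_simp; linear_combination h
    · change s 1 = s 1 / t 1 * t 1
      field_simp
  · refine ⟨s 0 / t 0, funext fun e => ?_⟩
    fin_cases e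
    · change s 0 = s 0 / t 0 * t 0
      field_simp
    · change s 1 = s 0 / t 0 * t 1
      field_simp; linear_combination -h

noncomputable def Phi (p : Fin 3 × Fin 3 → ℂ) (ν : ℂ) : Io → ℂ :=
  Sum.elim p fun j => ν * uu j.1 0 p * pq j.1 j.2 p

@[fun_prop] theorem IsPoly.Phi {E : Type} [NormedAddCommGroup E] [NormedSpace ℂ E]
    {f : E → Fin 3 × Fin 3 → ℂ} {g : E → ℂ} (hf : IsPoly f) (hg : IsPoly g) :
    IsPoly fun x => Phi (f x) (g x) := by unfold MP_1478a0_ag.Phi; fun_prop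

@[simp] theorem pI_Phi (p ν) : pI (Phi p ν) = p := rfl

theorem Phi_mem {t : Fin 2 → ℂ} (ht : t 0 ≠ 0) {p} (hp : p ∈ Ydiag (co t)) {ν : ℂ} (hν : ν ≠ 0)
    (hu : uu 0 0 p ≠ 0) : Phi p ν ∈ Mm t := by
  have hz : mk (fun e => t e / (ν * t 0)) (fun i => ν * uu i 0 p) p ∈ Zz := by
    refine ⟨⟨⟨0, mul_ne_zero hν hu⟩, fun i => (hp i).1⟩, eqn_iff.2 fun i e => ?_⟩
    have := (hp i).2
    rw [sum_co] at this
    simp only [pP_mk, aA_mk, sS_mk]
    fin_cases e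
    · simp only [Fin.zero_eta]; field_simp
    · simp only [Fin.mk_one]; field_simp; linear_combination -this
  refine (phi_mem_Mm hz fun h => ht (congrFun h 0)).2 ?_
  simp only [sS_mk]; ring

theorem phi_eq_Phi {z} (hz : z ∈ Zz) (hs : sS z 0 ≠ 0) : phi z = Phi (pP z) (sS z 0)⁻¹ := by
  funext j
  rcases j with j | ⟨i, f⟩
  · rfl
  · change aA z i * pq i f (pP z) = (sS z 0)⁻¹ * uu i 0 (pP z) * pq i f (pP z)
    rw [eqn_iff.1 hz.2]; field_simp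

theorem mem_Ydiag {t x} (hx : x ∈ Mm t) : pI x ∈ Ydiag (co t) := by
  obtain ⟨⟨⟨z, hz, rfl⟩, -⟩, h⟩ := mem_Mm.1 hx
  exact fun i => ⟨hz.1.2 i, by rw [sum_co]; exact h i⟩

/-- Points with all coordinates nonzero and general parameters are dense. -/
theorem dens {W F α : Type} [NormedAddCommGroup W] [NormedSpace ℂ W] [TopologicalSpace F]
    [Finite α] {sf : W → Fin 2 → ℂ} (hsf : IsPoly sf) {Ψ : W × (Vm → ℂ) → F} (hΨ : Continuous Ψ)
    {g : α → W → ℂ} (hg : ∀ a, IsPoly (g a)) (hg' : ∀ a, ∃ w, g a w ≠ 0) {w₀ z₀}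
    (hz : eqn z₀ = 0) (hs : sS z₀ = sf w₀) :
    Ψ (w₀, z₀) ∈ closure (Ψ '' {y | sS y.2 = sf y.1 ∧ y.2 ∈ Zz ∧ (∀ a, g a y.1 ≠ 0) ∧
      (∀ i, aA y.2 i ≠ 0) ∧ ∀ j, pP y.2 j ≠ 0}) := by
  set q : W × (Fin 3 → ℂ) × (Fin 3 → ℂ) → Fin 3 × Fin 3 → ℂ :=
    fun w j => sol j.1 (fun e => w.2.1 j.1 * sf w.1 e) (w.2.2 j.1) j.2 with hq
  have hqp : IsPoly q := by simp only [hq, sol]; fun_prop
  have hD := dense_forall_ne (E := W × (Fin 3 → ℂ) × (Fin 3 → ℂ)) (α := α ⊕ Fin 3 ⊕ Fin 3 × Fin 3)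
    (f := Sum.elim (fun a w => g a w.1) (Sum.elim (fun i w => w.2.1 i) fun j w => q w j))
    (by
      rintro (a | i | j)
      · exact (hg a).comp isPoly_id.fst
      · simp only [Sum.elim_inr, Sum.elim_inl]; fun_prop
      · exact (isPoly_apply j).comp hqp)
    (by
      rintro (a | i | ⟨i, k⟩)
      · obtain ⟨w, hw⟩ := hg' a
        exact ⟨(w, 0, 0), hw⟩
      · exact ⟨(0, fun _ => 1, 0), one_ne_zero⟩
      · refine ⟨(0, 0, fun _ => 1), ?_⟩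
        fin_cases k <;> simp [hq, sol])
  have h1 := cube_closure hqp.continuous_pi (hD (w₀, aA z₀, fun i => pP z₀ (i, 2) ^ 3))
    (p₀ := pP z₀) (by
      rintro ⟨i, k⟩
      exact congrFun (eq_sol (i := i) (q := fun k => pP z₀ (i, k) ^ 3)
        (y := fun e => aA z₀ i * sf w₀ e) fun e => by rw [← hs]; exact eqn_iff.1 hz i e) k)
  have hc : Continuous fun y : (W × (Fin 3 → ℂ) × (Fin 3 → ℂ)) × (Fin 3 × Fin 3 → ℂ) =>
      Ψ (y.1.1, mk (sf y.1.1) y.1.2.1 y.2) :=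
    hΨ.comp (continuous_fst.fst.prodMk (IsPoly.continuous_pi (by fun_prop)))
  have h2 := image_closure_subset_closure_image hc ⟨_, h1, rfl⟩
  simp only [← hs, mk_eta] at h2
  refine closure_mono ?_ h2
  rintro _ ⟨⟨⟨w, a, h⟩, p⟩, ⟨k1, k2⟩, rfl⟩
  have k3 : ∀ j, p j ≠ 0 := fun j h0 =>
    k1 (Sum.inr (Sum.inr j)) (by have := k2 j; simp only [h0] at this; simpa using this.symm)
  refine ⟨(w, mk (sf w) a p), ⟨rfl, ⟨⟨⟨0, k1 (Sum.inr (Sum.inl 0))⟩, fun i => ⟨0, k3 _⟩⟩, ?_⟩,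
    fun a => k1 (Sum.inl a), fun i => k1 (Sum.inr (Sum.inl i)), k3⟩, rfl⟩
  refine eqn_iff.2 fun i e => ?_
  simp only at k2
  simp only [pP_mk, aA_mk, sS_mk, uu, k2, hq, sum_sol]

theorem dens_Mm {t : Fin 2 → ℂ} {x} (hx : x ∈ Mm t) :
    x ∈ closure {y | ∃ z ∈ Zz, y = phi z ∧ (∃ r : ℂ, r ≠ 0 ∧ sS z = r • t) ∧
      (∀ i, aA z i ≠ 0) ∧ ∀ j, pP z j ≠ 0} := by
  obtain ⟨⟨⟨z, hz, rfl⟩, ht⟩, -⟩ := mem_Mm.1 hx
  obtain ⟨r, hr⟩ := exists_r ht ((phi_mem_Mm hz ht).1 hx)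
  have := dens (W := ℂ) (α := Unit) (sf := fun r => r • t) (by fun_prop)
    (Ψ := fun y => phi y.2) (isPoly_phi.continuous_pi.comp continuous_snd) (g := fun _ r => r)
    (fun _ => isPoly_id) (fun _ => ⟨1, one_ne_zero⟩) hz.2 hr
  refine closure_mono ?_ this
  rintro _ ⟨⟨r, z⟩, ⟨k1, k2, k3, k4, k5⟩, rfl⟩
  exact ⟨z, k2, rfl, ⟨r, k3 (), k1⟩, k4, k5⟩

/-- A point lying on all members. -/
theorem exists_base : ∃ x, ∀ t, t ≠ 0 → x ∈ Mm t := by
  obtain ⟨z, hz, h⟩ := exists_Zz 0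
  exact ⟨phi z, fun t ht => (phi_mem_Mm hz ht).2 (by simp [h])⟩

theorem fibre_surj {t : Fin 2 → ℂ} (ht : t ≠ 0) {z : Vm → ℂ} (hp : ∀ j, pP z j ≠ 0) :
    Function.Surjective (fderiv ℂ (fun w => (eqn w, t 1 * sS w 0 - t 0 * sS w 1)) z) := by
  set l : (Vm → ℂ) →L[ℂ] ℂ := t 1 • ContinuousLinearMap.proj (Sum.inl 0)
    - t 0 • ContinuousLinearMap.proj (Sum.inl 1) with hl
  have h1 : HasFDerivAt (fun w => (eqn w, t 1 * sS w 0 - t 0 * sS w 1))
      ((fderiv ℂ eqn z).prod l) z :=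
    (isPoly_eqn.analyticAt_pi z).differentiableAt.hasFDerivAt.prodMk l.hasFDerivAt
  rw [h1.fderiv]
  rintro ⟨y, β⟩
  obtain ⟨s, hs⟩ : ∃ s : Fin 2 → ℂ, t 1 * s 0 - t 0 * s 1 = β := by
    by_cases h0 : t 0 = 0
    · have h1 : t 1 ≠ 0 := fun h1 => ht (by funext e; fin_cases e <;> assumption)
      exact ⟨![β / t 1, 0], by simp; field_simp⟩
    · exact ⟨![0, -β / t 0], by simp; field_simp⟩
  refine ⟨mk s 0 fun j => sol j.1 (fun e => y (j.1, e) + aA z j.1 * s e) 0 j.2 / (3 * pP z j ^ 2),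
    Prod.ext (funext fun ⟨i, e⟩ => ?_) hs⟩
  have h2 : ∀ j (a : ℂ), 3 * pP z j ^ 2 * (a / (3 * pP z j ^ 2)) = a := fun j a => by
    have := hp j
    field_simp
  simp only [ContinuousLinearMap.prod_apply, fderiv_eqn, pP_mk, aA_mk, sS_mk, h2, sum_sol,
    Pi.zero_apply]
  ring

theorem pure_Mm {t : Fin 2 → ℂ} (ht : t ≠ 0) :
    Mm t ⊆ closure {x ∈ Mm t | SmoothAt (Mm t) x (3 + Fintype.card Ka)} := by
  intro x hx
  refine closure_mono ?_ (dens_Mm hx)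
  rintro _ ⟨z, hz, rfl, ⟨r, -, hr⟩, -, hp⟩
  have h0 : t 1 * sS z 0 - t 0 * sS z 1 = 0 := by simp [hr]; ring
  refine ⟨(phi_mem_Mm hz ht).2 h0, ?_⟩
  have e1 : Mm t = phi '' {w ∈ Zz | t 1 * sS w 0 - t 0 * sS w 1 = 0} := by
    ext y
    constructor
    · intro hy
      obtain ⟨⟨⟨w, hw, rfl⟩, -⟩, -⟩ := mem_Mm.1 hy
      exact ⟨w, ⟨hw, (phi_mem_Mm hw ht).1 hy⟩, rfl⟩
    · rintro ⟨w, hw, rfl⟩; exact (phi_mem_Mm hw.1 ht).2 hw.2
  obtain ⟨h1, h2, -⟩ := chart_of_eqs (X := {w ∈ Zz | t 1 * sS w 0 - t 0 * sS w 1 = 0})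
    ((isPoly_eqn.analyticAt_pi z).prod
      (IsPoly.analyticAt (f := fun w => t 1 * sS w 0 - t 0 * sS w 1) (by fun_prop) z))
    (fibre_surj ht hp) (Prod.ext hz.2 h0) ((Zz_eventually hz).mono fun w hw => by
      simp only [Set.mem_ofPred_eq, hw, Prod.mk_eq_zero])
  have := (chart_image (fun w hw => hw.1) (by exact ⟨hz, h0⟩) h1).smoothAt
  simp only [finrank_prod, finrank_self, finrank_fintype_fun_eq_card, Fintype.card_prod,
    Fintype.card_fin, Fintype.card_sum] at h2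
  have h3 := Nat.eq_sub_of_add_eq h2
  rw [h3, ← e1] at this
  exact this

theorem pI_scale (c : Ka → ℂ) (x : Io → ℂ) :
    pI (scale blk c x) = fun j => c (some j.1) * pI x j := rfl

theorem uu_pI_scale (i e) (c : Ka → ℂ) (x : Io → ℂ) :
    uu i e (pI (scale blk c x)) = c (some i) ^ 3 * uu i e (pI x) := by
  rw [pI_scale, uu_scale i e fun j => c (some j)]

theorem closed_Mm {t : Fin 2 → ℂ} (ht : t ≠ 0) : Closed blk (Mm t) := by
  have := closed_Xx.inter (f := fun i x => t 1 * uu i 0 (pI x) - t 0 * uu i 1 (pI x))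
    (fun i => by fun_prop) (by
      rintro x - _ ⟨c, -, rfl⟩ h i
      simp only [uu_pI_scale]
      linear_combination c (some i) ^ 3 * h i)
  have e : Mm t = {x ∈ Xx | ∀ i, t 1 * uu i 0 (pI x) - t 0 * uu i 1 (pI x) = 0} := by
    ext x; simp [mem_Mm, ht]
  rwa [e]

theorem irr_Mm {t : Fin 2 → ℂ} (ht : t 0 ≠ 0) (hc : ∀ j, co t j ≠ 0) : Irr (Mm t) := by
  obtain ⟨x₀, hx₀⟩ := exists_base
  refine ((irr_Ydiag hc).prod (irr_univ (E := ℂ))).of_dense (Φ := fun y => Phi y.1 y.2)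
    (by fun_prop) (h := fun y => y.2 * uu 0 0 y.1) (by fun_prop)
    ⟨x₀, hx₀ t fun h => ht (congrFun h 0)⟩ ?_ ?_
  · rintro ⟨p, ν⟩ ⟨hp, -⟩ h
    exact Phi_mem ht hp (left_ne_zero_of_mul h) (right_ne_zero_of_mul h)
  · intro x hx
    refine closure_mono ?_ (dens_Mm hx)
    rintro _ ⟨z, hz, rfl, ⟨r, hr, hs⟩, ha, -⟩
    have h0 : sS z 0 ≠ 0 := by rw [hs]; exact mul_ne_zero hr ht
    have h1 : phi z ∈ Mm t := (phi_mem_Mm hz (mem_Mm.1 hx).1.2).2 (by simp [hs]; ring)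
    refine ⟨(pP z, (sS z 0)⁻¹), ⟨⟨mem_Ydiag h1, trivial⟩, ?_⟩, (phi_eq_Phi hz h0).symm⟩
    simp only [eqn_iff.1 hz.2]
    exact mul_ne_zero (inv_ne_zero h0) (mul_ne_zero (ha 0) h0)

theorem same_Phi {c : Fin 3 → ℂ} (hc : ∀ i, c i ≠ 0) {ν ν' : ℂ} (hν : ν ≠ 0) (hν' : ν' ≠ 0) (p) :
    Same blk (Phi p ν) (Phi (fun j => c j.1 * p j) ν') := by
  refine ⟨fun k => k.elim (ν' / ν * ∏ i, c i ^ 3) c, ?_, ?_⟩
  · rintro (_ | i)
    · exact mul_ne_zero (div_ne_zero hν' hν)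
        (Finset.prod_ne_zero_iff.2 fun i _ => pow_ne_zero _ (hc i))
    · exact hc i
  · funext j
    rcases j with j | ⟨i, f⟩
    · rfl
    · change ν' * uu i 0 (fun j => c j.1 * p j) * pq i f (fun j => c j.1 * p j)
        = (ν' / ν * ∏ i, c i ^ 3) * (ν * uu i 0 p * pq i f p)
      rw [uu_scale, pq_scale, ← Finset.mul_prod_erase _ _ (Finset.mem_univ i)]
      field_simp

theorem birational_Mm {t : Fin 2 → ℂ} (ht : t 0 ≠ 0) (hc : ∀ j, co t j ≠ 0) :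
    Birational blk (Mm t) Prod.fst Acube := by
  obtain ⟨Lf, Lg, hf, hg, h1, h2, h3, h4, h5⟩ := exists_L hc
  have ht' : t ≠ 0 := fun h => ht (congrFun h 0)
  refine ⟨{x ∈ Mm t | uu 0 0 (pI x) ≠ 0}, {w ∈ Acube | uu 0 0 (Lg w) ≠ 0}, fun x => Lf (pI x),
    fun w => Phi (Lg w) 1, ?_, fun x hx => hx.1, ?_, fun x hx => hx.1, ?_, ?_, ?_, ?_, ?_, ?_, ?_⟩
  · obtain ⟨x₀, hx₀⟩ := exists_base
    obtain ⟨_, z, hz, rfl, ⟨r, hr, hs⟩, ha, -⟩ := Set.Nonempty.of_closure ⟨_, dens_Mm (hx₀ t ht')⟩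
    refine ⟨phi z, (phi_mem_Mm hz ht').2 (by simp [hs]; ring), ?_⟩
    rw [pI_phi, eqn_iff.1 hz.2, hs]
    exact mul_ne_zero (ha 0) (mul_ne_zero hr ht)
  · have := (closed_Mm ht').inter (α := Unit) (f := fun _ x => uu 0 0 (pI x))
      (fun i => by fun_prop) (by
        rintro x - _ ⟨c, -, rfl⟩ h i
        simp only [uu_pI_scale, h i, mul_zero])
    have e : Mm t \ {x ∈ Mm t | uu 0 0 (pI x) ≠ 0} = {x ∈ Mm t | ∀ _ : Unit, uu 0 0 (pI x) = 0} := by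
      ext x; simp
    rwa [e]
  · have := closed_Acube.inter (α := Unit) (f := fun _ x => uu 0 0 (Lg x))
      (fun i => by fun_prop) (by
        rintro x - _ ⟨c, -, rfl⟩ h i
        have := h4 c x
        change uu 0 0 (Lg fun j => c j.1 * x j) = 0
        rw [h4, uu_scale, h i, mul_zero])
    have e : Acube \ {x ∈ Acube | uu 0 0 (Lg x) ≠ 0}
        = {x ∈ Acube | ∀ _ : Unit, uu 0 0 (Lg x) = 0} := by
      ext x; simp
    rwa [e]
  · intro x hx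
    exact ⟨(h5 _).1 (mem_Ydiag hx.1), by rw [h1]; exact hx.2⟩
  · intro w hw
    exact ⟨Phi_mem ht ((h5 _).2 (by rw [h2]; exact hw.1)) one_ne_zero hw.2, hw.2⟩
  · refine regular_of ?_ fun x₀ _ => ⟨fun _ => 1, fun x => Lf (pI x), by fun_prop, by fun_prop,
      one_ne_zero, fun x _ _ => Same.refl _ _⟩
    rintro x - _ - ⟨c, hc, rfl⟩
    exact ⟨fun i => c (some i), fun i => hc _, h3 (fun i => c (some i)) (pI x)⟩
  · refine regular_of ?_ fun x₀ _ => ⟨fun _ => 1, fun w => Phi (Lg w) 1, by fun_prop, by fun_prop,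
      one_ne_zero, fun x _ _ => Same.refl _ _⟩
    rintro x - _ - ⟨c, hc, rfl⟩
    change Same blk _ (Phi (Lg fun j => c j.1 * x j) 1)
    rw [h4]
    exact same_Phi hc one_ne_zero one_ne_zero _
  · rintro x ⟨hx, hu⟩
    obtain ⟨⟨⟨z, hz, rfl⟩, -⟩, -⟩ := mem_Mm.1 hx
    have h0 : sS z 0 ≠ 0 := by
      rw [pI_phi, eqn_iff.1 hz.2] at hu
      exact right_ne_zero_of_mul hu
    simp only [h1, pI_phi]
    rw [phi_eq_Phi hz h0]
    have := same_Phi (c := fun _ => 1) (fun _ => one_ne_zero) one_ne_zero (inv_ne_zero h0) (pP z)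
    simpa using this
  · intro w _
    simp only [pI_Phi, h2]
    exact Same.refl _ _

theorem closed_Tt : Closed bT Tt := by
  refine closed_of ?_ ?_ ?_
  · rintro x hx _ ⟨c, hc, rfl⟩
    obtain ⟨i, hi⟩ := Function.ne_iff.1 hx
    exact Function.ne_iff.2 ⟨i, mul_ne_zero (hc _) hi⟩
  · intro x hx k
    obtain ⟨i, hi⟩ := Function.ne_iff.1 hx
    exact ⟨i, rfl, hi⟩
  · intro y hy _
    obtain ⟨i, -, hi⟩ := hy ()
    exact Function.ne_iff.2 ⟨i, hi⟩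

theorem Closed.prod {ι κ ι' κ' : Type} [Fintype ι] [Fintype ι'] {b : ι → κ} {b' : ι' → κ'}
    {X : Set (ι → ℂ)} {Y : Set (ι' → ℂ)} (hX : Closed b X) (hY : Closed b' Y) :
    Closed (Sum.map b b') {w | w ∘ Sum.inl ∈ X ∧ w ∘ Sum.inr ∈ Y} := by
  refine closed_of ?_ ?_ ?_
  · rintro x ⟨h1, h2⟩ y hxy
    exact ⟨hX.1 _ h1 _ (same_sum.1 hxy).1, hY.1 _ h2 _ (same_sum.1 hxy).2⟩
  · rintro x ⟨h1, h2⟩ (k | k)
    · obtain ⟨i, rfl, hi⟩ := hX.subset_cone h1 k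
      exact ⟨Sum.inl i, rfl, hi⟩
    · obtain ⟨i, rfl, hi⟩ := hY.subset_cone h2 k
      exact ⟨Sum.inr i, rfl, hi⟩
  · intro y hy H
    refine ⟨hX.mem_of (fun k => ?_) fun f hf h => ?_, hY.mem_of (fun k => ?_) fun f hf h => ?_⟩
    · obtain ⟨i | i, h1, h2⟩ := hy (Sum.inl k)
      · exact ⟨i, Sum.inl.inj h1, h2⟩
      · simp at h1
    · exact H (fun w => f fun i => w (Sum.inl i)) (by fun_prop) fun x hx => h _ hx.1
    · obtain ⟨i | i, h1, h2⟩ := hy (Sum.inr k)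
      · simp at h1
      · exact ⟨i, Sum.inr.inj h1, h2⟩
    · exact H (fun w => f fun i => w (Sum.inr i)) (by fun_prop) fun x hx => h _ hx.2

theorem closed_Cc : Closed (Sum.map blk bT) Cc := by
  refine (closed_Xx.prod closed_Tt).inter
    (f := fun i w => w (Sum.inr 1) * uu i 0 (pI (w ∘ Sum.inl))
      - w (Sum.inr 0) * uu i 1 (pI (w ∘ Sum.inl)))
    (fun i => by simp only [Function.comp_def]; fun_prop) ?_
  rintro x - _ ⟨c, -, rfl⟩ h i
  change c (Sum.inr ()) * x (Sum.inr 1) * uu i 0 (pI (scale blk (c ∘ Sum.inl) (x ∘ Sum.inl)))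
    - c (Sum.inr ()) * x (Sum.inr 0) * uu i 1 (pI (scale blk (c ∘ Sum.inl) (x ∘ Sum.inl))) = 0
  simp only [uu_pI_scale]
  linear_combination c (Sum.inr ()) * (c ∘ Sum.inl) (some i) ^ 3 * h i

theorem irr_singleton {E : Type} [NormedAddCommGroup E] [NormedSpace ℂ E] (x : E) :
    Irr ({x} : Set E) :=
  ⟨⟨x, rfl⟩, fun f g _ _ h => by simpa using h⟩

theorem irr_total : Irr {y : ℂ × (Fin 3 × Fin 3 → ℂ) |
    ∃ τ ∈ (Set.range fun j : Fin 3 × Fin 3 => cc j.1 j.2)ᶜ, y ∈ {τ} ×ˢ Ydiag (co ![1, τ])} := by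
  have hfin : (Set.range fun j : Fin 3 × Fin 3 => cc j.1 j.2).Finite := Set.finite_range _
  have hconn := hfin.countable.isConnected_compl_of_one_lt_rank
    (by rw [Complex.rank_real_complex]; exact Nat.one_lt_ofNat)
  have hco : ∀ τ j, co ![1, τ] j = τ - cc j.1 j.2 := fun τ j => by simp [co]
  have hne : ∀ τ ∈ (Set.range fun j : Fin 3 × Fin 3 => cc j.1 j.2)ᶜ, ∀ j : Fin 3 × Fin 3,
      τ - cc j.1 j.2 ≠ 0 := fun τ hτ j h => hτ ⟨j, (sub_eq_zero.1 h).symm⟩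
  refine irr_family hfin.isClosed.isOpen_compl hconn.isPreconnected hconn.nonempty
    (fun τ hτ => (irr_singleton τ).prod (irr_Ydiag fun j => by rw [hco]; exact hne τ hτ j)) ?_
  intro τ₀ hτ₀
  set x : ℂ → Fin 3 × Fin 3 → ℂ := fun τ j => (τ - cc j.1 j.2) / (τ₀ - cc j.1 j.2) with hx
  have h1 : ∀ᶠ τ in 𝓝 τ₀, ∀ j, x τ j ∈ Complex.slitPlane := by
    refine eventually_all.2 fun j => ?_
    have : ContinuousAt (fun τ => x τ j) τ₀ := by simp only [hx]; fun_prop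
    refine this.eventually_mem (Complex.isOpen_slitPlane.mem_nhds ?_)
    simp only [hx, div_self (hne τ₀ hτ₀ j)]
    exact Complex.one_mem_slitPlane
  obtain ⟨ε, hε, hB⟩ := Metric.eventually_nhds_iff_ball.1 h1
  set ρ : ℂ → Fin 3 × Fin 3 → ℂ := fun τ j => Complex.exp (-Complex.log (x τ j) / 3) with hρ
  have hρ3 : ∀ τ ∈ Metric.ball τ₀ ε, ∀ j, (τ - cc j.1 j.2) * ρ τ j ^ 3 = τ₀ - cc j.1 j.2 := by
    intro τ hτ j
    have h2 := Complex.slitPlane_ne_zero (hB τ hτ j)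
    have : ρ τ j ^ 3 = (x τ j)⁻¹ := by
      rw [hρ]
      simp only
      rw [← Complex.exp_nat_mul, ← Complex.exp_log h2, ← Complex.exp_neg, Complex.exp_log h2]
      congr 1; push_cast; ring
    rw [this, hx]
    have h3 : τ - cc j.1 j.2 ≠ 0 := fun h => h2 (by simp [hx, h])
    simp only [inv_div]
    field_simp
  refine ⟨Metric.ball τ₀ ε, Ydiag (co ![1, τ₀]), fun u τ => (τ, fun j => ρ τ j * u.1 j),
    Metric.isOpen_ball, (convex_ball τ₀ ε).isPreconnected, Metric.mem_ball_self hε, ?_, ?_⟩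
  · intro u τ hτ f hf
    refine (hf.analyticAt _).comp (f := fun τ => (τ, fun j => ρ τ j * u.1 j))
      (analyticAt_id.prod (analyticAt_pi_iff.2 fun j => AnalyticAt.mul ?_ analyticAt_const))
    have : AnalyticAt ℂ (fun τ => x τ j) τ := by simp only [hx]; fun_prop
    exact ((this.clog (hB τ hτ j)).neg.div_const).cexp
  · intro τ hτ
    have hρ0 : ∀ j, ρ τ j ≠ 0 := fun j => Complex.exp_ne_zero _
    ext ⟨σ, p⟩
    constructor
    · rintro ⟨rfl, hp⟩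
      refine ⟨⟨fun j => p j / ρ σ j, fun i => ⟨?_, ?_⟩⟩, ?_⟩
      · obtain ⟨k, hk⟩ := (hp i).1
        exact ⟨k, div_ne_zero hk (hρ0 _)⟩
      · rw [← (hp i).2]
        refine Finset.sum_congr rfl fun k _ => ?_
        rw [hco, hco, ← hρ3 σ hτ (i, k)]
        have := hρ0 (i, k)
        field_simp
      · refine Prod.ext rfl (funext fun j => ?_)
        have := hρ0 j
        simp only
        field_simp
    · rintro ⟨⟨u, hu⟩, h⟩
      obtain ⟨rfl, rfl⟩ := Prod.mk.inj h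
      refine ⟨rfl, fun i => ⟨?_, ?_⟩⟩
      · obtain ⟨k, hk⟩ := (hu i).1
        exact ⟨k, mul_ne_zero (hρ0 _) hk⟩
      · rw [← (hu i).2]
        refine Finset.sum_congr rfl fun k _ => ?_
        rw [hco, hco, ← hρ3 τ hτ (i, k)]
        ring

theorem irr_Cc : Irr Cc := by
  obtain ⟨x₀, hx₀⟩ := exists_base
  have h10 : (![1, 0] : Fin 2 → ℂ) ≠ 0 := fun h => by simpa using congrFun h 0
  refine (irr_total.prod (irr_univ (E := ℂ × ℂ))).of_dense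
    (Φ := fun y => Sum.elim (Phi y.1.2 y.2.1) fun e => y.2.2 * y.1.1 ^ e.val)
    (by fun_prop) (h := fun y => y.2.1 * y.2.2 * uu 0 0 y.1.2) (by fun_prop)
    ⟨_, hx₀ _ h10⟩ ?_ ?_
  · rintro ⟨⟨τ, p⟩, ν, μ⟩ ⟨⟨_, -, rfl, hp⟩, -⟩ h
    simp only [mul_ne_zero_iff] at h
    refine Phi_mem (t := fun e => μ * τ ^ e.val) (by simpa using h.1.2) (fun i => ⟨(hp i).1, ?_⟩)
      h.1.1 h.2
    have := (hp i).2
    rw [sum_co] at this ⊢
    simp only [Matrix.cons_val_zero, Matrix.cons_val_one, Fin.val_zero, pow_zero, Fin.val_one,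
      pow_one] at this ⊢
    linear_combination μ * this
  · intro w hw
    obtain ⟨⟨⟨z, hz, hw1⟩, ht⟩, -⟩ := id hw
    have hw2 : w = Sum.elim (phi z) (w ∘ Sum.inr) := by rw [hw1]; funext j; cases j <;> rfl
    set t := w ∘ Sum.inr
    obtain ⟨r, hr⟩ := exists_r ht ((phi_mem_Mm hz ht).1 (by rw [hw2] at hw; exact hw))
    have := dens (W := ℂ × (Fin 2 → ℂ)) (α := Bool ⊕ Fin 3 × Fin 3) (sf := fun y => y.1 • y.2)
      (by fun_prop) (Ψ := fun y => Sum.elim (phi y.2) y.1.2) (IsPoly.continuous_pi (by fun_prop))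
      (g := Sum.elim (fun b y => if b then y.1 else y.2 0) fun j y => co y.2 j)
      (by
        rintro ((_ | _) | j)
        · simp only [Sum.elim_inl, Bool.false_eq_true, if_false]; fun_prop
        · simp only [Sum.elim_inl, if_true]; fun_prop
        · simp only [Sum.elim_inr, co]; fun_prop)
      (by
        rintro ((_ | _) | j)
        · exact ⟨(0, fun _ => 1), by simp⟩
        · exact ⟨(1, 0), by simp⟩
        · exact ⟨(0, ![0, 1]), by simp [co]⟩)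
      (w₀ := (r, t)) hz.2 hr
    rw [hw2]
    refine closure_mono ?_ this
    rintro _ ⟨⟨⟨r, t⟩, z⟩, ⟨hs, hz, k3, ha, -⟩, rfl⟩
    have hr : r ≠ 0 := k3 (Sum.inl true)
    have ht : t 0 ≠ 0 := k3 (Sum.inl false)
    have hc : ∀ j, co t j ≠ 0 := fun j => k3 (Sum.inr j)
    simp only at hs hz ha
    have h0 : sS z 0 ≠ 0 := by rw [hs]; exact mul_ne_zero hr ht
    have h1 : phi z ∈ Mm t := (phi_mem_Mm hz fun h => ht (congrFun h 0)).2 (by simp [hs]; ring)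
    refine ⟨((t 1 / t 0, pP z), (sS z 0)⁻¹, t 0), ⟨⟨⟨t 1 / t 0, ?_, rfl, fun i => ⟨hz.1.2 i, ?_⟩⟩,
      trivial⟩, ?_⟩, ?_⟩
    · rintro ⟨j, hj⟩
      apply hc j
      simp only [co, hj]
      field_simp
      ring
    · have := (mem_Ydiag h1 i).2
      rw [sum_co] at this ⊢
      simp only [Matrix.cons_val_zero, Matrix.cons_val_one, pI_phi] at this ⊢
      field_simp
      linear_combination this
    · simp only [eqn_iff.1 hz.2]
      exact mul_ne_zero (mul_ne_zero (inv_ne_zero h0) ht) (mul_ne_zero (ha 0) h0)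
    · simp only [← phi_eq_Phi hz h0]
      congr 1
      funext e
      fin_cases e
      · simp
      · simp; field_simp

theorem cover {x} (hx : x ∈ Xx) : ∃ t, x ∈ Mm t := by
  obtain ⟨z, hz, rfl⟩ := hx
  by_cases h : sS z = 0
  · have h10 : (![1, 0] : Fin 2 → ℂ) ≠ 0 := fun h => by simpa using congrFun h 0
    exact ⟨_, (phi_mem_Mm hz h10).2 (by simp [h])⟩
  · exact ⟨_, (phi_mem_Mm hz h).2 (by ring)⟩

theorem irr_Xx : Irr Xx := by
  have : Xx = (fun w i => w (Sum.inl i)) '' Cc := by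
    ext x
    constructor
    · intro hx
      obtain ⟨t, ht⟩ := cover hx
      exact ⟨_, ht, rfl⟩
    · rintro ⟨w, hw, rfl⟩; exact hw.1.1
  rw [this]; exact irr_Cc.image (by fun_prop)

theorem irr_Tt : Irr Tt := by
  refine (irr_univ (E := Fin 2 → ℂ)).of_dense isPoly_id (h := fun t => t 0) (by fun_prop)
    ⟨![1, 0], fun h => by simpa using congrFun h 0⟩ (fun t _ ht h => ht (congrFun h 0)) ?_
  intro t _
  have := IsPoly.dense_ne (f := fun t : Fin 2 → ℂ => t 0) (by fun_prop) (x₀ := fun _ => 1)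
    one_ne_zero t
  simpa using this

theorem toricChain_Xx : ToricChain blk Xx := by
  obtain ⟨x₀, hx₀⟩ := exists_base
  set h : (Fin 2 → ℂ) → ℂ := fun t => t 0 * ∏ j, co t j with hh
  have hp : IsPoly h := by simp only [hh, co]; fun_prop
  have h1 : ∀ t, h t ≠ 0 → t 0 ≠ 0 ∧ ∀ j, co t j ≠ 0 := fun t ht =>
    ⟨left_ne_zero_of_mul ht, fun j =>
      Finset.prod_ne_zero_iff.1 (right_ne_zero_of_mul ht) j (Finset.mem_univ j)⟩
  have h2 : h ![1, -1] ≠ 0 := by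
    refine mul_ne_zero one_ne_zero (Finset.prod_ne_zero_iff.2 fun j _ h0 => ?_)
    have : ((3 * j.1.val + j.2.val + 1 : ℕ) : ℂ) = 0 := by
      simp only [co, cc, Matrix.cons_val_zero, Matrix.cons_val_one] at h0
      push_cast at h0 ⊢
      linear_combination -h0
    exact Nat.succ_ne_zero _ (Nat.cast_eq_zero.1 this)
  have hv : ∀ t, h t ≠ 0 → Variety blk (Mm t) := fun t ht =>
    ⟨closed_Mm fun h0 => (h1 t ht).1 (congrFun h0 0), (irr_Mm (h1 t ht).1 (h1 t ht).2).isPrime⟩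
  refine ⟨Fin 2, Unit, inferInstance, inferInstance, bT, Tt, Cc, 3, Mm,
    ⟨closed_Tt, irr_Tt.isPrime⟩, ⟨closed_Cc, irr_Cc.isPrime⟩, fun z hz => hz.1, fun _ => rfl,
    fun x hx => cover hx, fun t ht => ⟨⟨x₀, hx₀ t ht⟩, pure_Mm ht⟩, ?_, ?_⟩
  · obtain ⟨P, hP⟩ := hp.exists_eval
    simp only [← hP] at h1 h2 hv
    exact ⟨P, ⟨_, fun h0 => (h1 _ h2).1 (congrFun h0 0), h2⟩, fun t _ ht => ⟨hv t ht, _, _,
      inferInstance, inferInstance, _, _, abelian_Acube, birational_Mm (h1 t ht).1 (h1 t ht).2⟩⟩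
  · obtain ⟨P, hP⟩ := IsPoly.exists_eval (f := fun x : Io → ℂ => h fun e => uu 0 e (pI x))
      (by fun_prop)
    have key : ∀ x ∈ Xx, MvPolynomial.eval x P ≠ 0 →
        ∃ t ∈ Tt, Variety blk (Mm t) ∧ x ∈ Mm t ∧ x₀ ∈ Mm t := by
      rintro _ ⟨z, hz, rfl⟩ hx
      rw [hP] at hx
      have ht : (fun e => uu 0 e (pI (phi z))) ≠ 0 := fun h0 =>
        (h1 (fun e => uu 0 e (pI (phi z))) hx).1 (congrFun h0 0)
      refine ⟨_, ht, hv _ hx, (phi_mem_Mm hz ht).2 ?_, hx₀ _ ht⟩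
      simp only [pI_phi, eqn_iff.1 hz.2]; ring
    refine ⟨P, ?_, fun x hx y hy k1 k2 => ?_⟩
    · choose p hp using fun j : Fin 3 × Fin 3 =>
        IsAlgClosed.exists_pow_nat_eq (sol j.1 ![1, -1] 1 j.2) (n := 3) three_pos
      have hu : ∀ i e, uu i e p = ![1, -1] e := fun i e => by simp only [uu, hp, sum_sol]
      refine ⟨phi (mk ![1, -1] (fun _ => 1) p), ⟨_, ⟨⟨⟨0, one_ne_zero⟩, fun i => ⟨2, fun h => ?_⟩⟩,
        eqn_iff.2 fun i e => by simp [hu]⟩, rfl⟩, ?_⟩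
      · have := hp (i, 2)
        rw [pP_mk] at h
        simp [h, sol] at this
      · rw [hP]
        simpa only [pI_phi, pP_mk, hu] using h2
    · obtain ⟨t, ht, a1, a2, a3⟩ := key y hy k2
      exact (Relation.ReflTransGen.single (key x hx k1)).tail ⟨t, ht, a1, a3, a2⟩

end Pool.Agent.Lib.MP_1478a0_ag
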