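import Pool.Agent.Lib.MP_1478a0_ag.Model

/-! Two independent holomorphic four-forms on the fourfold. -/

namespace Pool.Agent.Lib.MP_1478a0_ag

open Filter Topology Module Matrix

noncomputable def wt (c : Ka → ℂ) : Vm → ℂ :=
  mk (fun _ => 3 * ∑ i, c (some i) - c none)
    (fun j => c none - 3 * ∑ i ∈ Finset.univ.erase j, c (some i)) fun j => c (some j.1)

noncomputable def eu (c : Ka → ℂ) (z : Vm → ℂ) : Vm → ℂ := fun j => wt c j * z j

noncomputable def Eu (z : Vm → ℂ) : Ka → Vm → ℂ := fun k => eu (Pi.single k 1) z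

theorem dd_exp (c : Ka → ℂ) (t : ℂ) (j) :
    dd (fun k => Complex.exp (t * c k)) j = Complex.exp (t * wt c j) := by
  have h : ∀ s : Finset (Fin 3), ∏ i ∈ s, Complex.exp (t * c (some i)) ^ 3
      = Complex.exp (t * (3 * ∑ i ∈ s, c (some i))) := by
    intro s
    rw [Finset.mul_sum, Finset.mul_sum, Complex.exp_sum]
    refine Finset.prod_congr rfl fun i _ => ?_
    rw [← Complex.exp_nat_mul]; congr 1; push_cast; ring
  rcases j with j | j | j
  · change (∏ i, Complex.exp (t * c (some i)) ^ 3) / Complex.exp (t * c none)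
      = Complex.exp (t * (3 * ∑ i, c (some i) - c none))
    rw [h, mul_sub, Complex.exp_sub]
  · change Complex.exp (t * c none) / (∏ i ∈ Finset.univ.erase j, Complex.exp (t * c (some i)) ^ 3)
      = Complex.exp (t * (c none - 3 * ∑ i ∈ Finset.univ.erase j, c (some i)))
    rw [h, mul_sub, Complex.exp_sub]
  · rfl

theorem hasDerivAt_exp_mul {α : Type} [Fintype α] (w z : α → ℂ) :
    HasDerivAt (fun t : ℂ => fun j => Complex.exp (t * w j) * z j) (fun j => w j * z j) 0 := by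
  refine hasDerivAt_pi.2 fun j => ?_
  have := ((hasDerivAt_id (0 : ℂ)).mul_const (w j)).cexp.mul_const (z j)
  simpa using this

theorem dphi (z) : HasFDerivAt phi (fderiv ℂ phi z) z :=
  (isPoly_phi.analyticAt_pi z).differentiableAt.hasFDerivAt

theorem eu_spec {z} (hz : z ∈ Zz) (c : Ka → ℂ) :
    jac z *ᵥ eu c z = 0 ∧ fderiv ℂ phi z (eu c z) = scale blk c (phi z) := by
  have h1 := hasDerivAt_exp_mul (wt c) z
  have h2 : ∀ t : ℂ, (fun j => Complex.exp (t * wt c j) * z j)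
      = act (fun k => Complex.exp (t * c k)) z := fun t => funext fun j => by rw [act, dd_exp]
  have h0 : (fun j => Complex.exp (0 * wt c j) * z j) = z := by funext j; simp
  constructor
  · rw [← tangent_Zz hz]
    have := tangent_curve (S := Zz) h1 fun t => by
      rw [h2]; exact act_mem (fun _ => Complex.exp_ne_zero _) hz
    rwa [h0] at this
  · have h3 := HasFDerivAt.comp_hasDerivAt (0 : ℂ) (l := phi) (l' := fderiv ℂ phi z)
      (by rw [h0]; exact dphi z) h1
    have h4 := hasDerivAt_exp_mul (fun j => c (blk j)) (phi z)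
    refine h3.unique ?_
    have : phi ∘ (fun (t : ℂ) j => Complex.exp (t * wt c j) * z j)
        = fun (t : ℂ) j => Complex.exp (t * c (blk j)) * phi z j := by
      funext t
      rw [Function.comp_apply, h2, phi_act fun _ => Complex.exp_ne_zero _]
      rfl
    rw [this]; exact h4

theorem eu_eq_sum (c : Ka → ℂ) (z) : eu c z = ∑ k, c k • Eu z k := by
  funext j
  simp only [Finset.sum_apply, Pi.smul_apply, smul_eq_mul, Eu, eu, ← mul_assoc, ← Finset.sum_mul]
  congr 1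
  have h : ∀ s : Finset (Fin 3), ∑ k, c k * (3 * ∑ i ∈ s, (Pi.single k 1 : Ka → ℂ) (some i))
      = 3 * ∑ i ∈ s, c (some i) := by
    intro s
    simp only [Finset.mul_sum]
    rw [Finset.sum_comm]
    refine Finset.sum_congr rfl fun i _ => ?_
    simp [Pi.single_apply, mul_comm]
  have h' : ∀ k', ∑ k, c k * (Pi.single k 1 : Ka → ℂ) k' = c k' := by
    intro k'; simp [Pi.single_apply]
  rcases j with j | j | j
  · change 3 * ∑ i, c (some i) - c none = ∑ k, c k *
      (3 * ∑ i, (Pi.single k 1 : Ka → ℂ) (some i) - (Pi.single k 1 : Ka → ℂ) none)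
    simp only [mul_sub, Finset.sum_sub_distrib, h, h']
  · change c none - 3 * ∑ i ∈ Finset.univ.erase j, c (some i) = ∑ k, c k *
      ((Pi.single k 1 : Ka → ℂ) none
        - 3 * ∑ i ∈ Finset.univ.erase j, (Pi.single k 1 : Ka → ℂ) (some i))
    simp only [mul_sub, Finset.sum_sub_distrib, h, h']
  · exact (h' _).symm

theorem dpsi_dphi {z i₀ f} (hz : z ∈ Zz) (h : Valid i₀ f (phi z)) {v} (hv : jac z *ᵥ v = 0) :
    fderiv ℂ (psi i₀ f) (phi z) (fderiv ℂ phi z v) = v := by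
  refine tangent_eq hz ((analyticAt_psi h).differentiableAt.hasFDerivAt.comp z (dphi z))
    (hasFDerivAt_id z) ?_ ((tangent_Zz hz).2 hv)
  filter_upwards [isPoly_phi.continuous_pi.continuousAt.eventually h.eventually] with w h1 hw
  exact psi_phi hw h1

theorem tangent_Xx {z} (hz : z ∈ Zz) {v} :
    v ∈ tangentConeAt ℂ Xx (phi z) ↔ ∃ u, jac z *ᵥ u = 0 ∧ v = fderiv ℂ phi z u := by
  constructor
  · intro hv
    obtain ⟨i₀, f, h⟩ := exists_valid hz.1
    have d := (analyticAt_psi h).differentiableAt.hasFDerivAt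
    have h2 : ∀ᶠ y in 𝓝 (phi z), y ∈ Xx → psi i₀ f y ∈ Zz ∧ phi (psi i₀ f y) = y := by
      filter_upwards [h.eventually]
      rintro _ h1 ⟨w, hw, rfl⟩
      rw [psi_phi hw h1]
      exact ⟨hw, rfl⟩
    refine ⟨fderiv ℂ (psi i₀ f) (phi z) v, ?_, ?_⟩
    · have := tangent_map (T := Zz) d (h2.mono fun y h1 hy => (h1 hy).1) hv
      rwa [psi_phi hz h, tangent_Zz hz] at this
    · have d2 : HasFDerivAt phi (fderiv ℂ phi z) (psi i₀ f (phi z)) := by
        rw [psi_phi hz h]; exact dphi z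
      exact (tangent_eq (S := Xx) ⟨z, hz, rfl⟩ (d2.comp _ d) (hasFDerivAt_id _)
        (h2.mono fun y h1 hy => (h1 hy).2) hv).symm
  · rintro ⟨u, hu, rfl⟩
    exact tangent_map (T := Xx) (dphi z) (Eventually.of_forall fun w hw => ⟨w, hw, rfl⟩)
      ((tangent_Zz hz).2 hu)

noncomputable def loc1 (a : ℂ) (N : (Vm → ℂ) [⋀^Fin 4]→ₗ[ℂ] ℂ) (c : Fin 3 × (Fin 3 → Fin 3))
    (y : Io → ℂ) : (Io → ℂ) [⋀^Fin 4]→ₗ[ℂ] ℂ :=
  a • N.compLinearMap (fderiv ℂ (psi c.1 c.2) y : _ →ₗ[ℂ] _)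

theorem loc1_apply (a N c y v) :
    loc1 a N c y v = a * N fun j => fderiv ℂ (psi c.1 c.2) y (v j) := rfl

/-- The local expression of the forms. -/
noncomputable def loc (e : Fin 2) (c : Fin 3 × (Fin 3 → Fin 3)) (A : Matrix (Fin 4 ⊕ Ka) Vm ℂ)
    (y : Io → ℂ) : (Io → ℂ) [⋀^Fin 4]→ₗ[ℂ] ℂ :=
  loc1 (sS (psi c.1 c.2 y) e / dl ee A (jac (psi c.1 c.2 y))) (numF A (Eu (psi c.1 c.2 y))) c y

theorem loc_eq (e c A y) (v : Fin 4 → Io → ℂ) : loc e c A y v
    = sS (psi c.1 c.2 y) e / dl ee A (jac (psi c.1 c.2 y)) *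
      numF A (Eu (psi c.1 c.2 y)) fun j => fderiv ℂ (psi c.1 c.2) y (v j) := by
  rw [loc, loc1_apply]

noncomputable def ch (y : Io → ℂ) : Fin 3 × (Fin 3 → Fin 3) :=
  Classical.epsilon fun c => Valid c.1 c.2 y

noncomputable def Ac (z : Vm → ℂ) : Matrix (Fin 4 ⊕ Ka) Vm ℂ :=
  Classical.epsilon fun A => dl ee A (jac z) ≠ 0

noncomputable def om (e : Fin 2) (y : Io → ℂ) : (Io → ℂ) [⋀^Fin 4]→ₗ[ℂ] ℂ :=
  loc e (ch y) (Ac (psi (ch y).1 (ch y).2 y)) y

theorem ch_valid {z} (hz : z ∈ Zz) : Valid (ch (phi z)).1 (ch (phi z)).2 (phi z) := by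
  obtain ⟨i, f, h⟩ := exists_valid hz.1
  exact Classical.epsilon_spec (p := fun c : Fin 3 × (Fin 3 → Fin 3) => Valid c.1 c.2 (phi z))
    ⟨(i, f), h⟩

theorem Ac_ne {z} (hz : z ∈ Zz) : dl ee (Ac z) (jac z) ≠ 0 :=
  Classical.epsilon_spec (p := fun A => dl ee A (jac z) ≠ 0) (exists_A hz)

theorem loc_apply {z} (hz : z ∈ Zz) (e) {c : Fin 3 × (Fin 3 → Fin 3)} (hc : Valid c.1 c.2 (phi z))
    {A A'} (hA : dl ee A (jac z) ≠ 0) (hA' : dl ee A' (jac z) ≠ 0) {u : Fin 4 → Vm → ℂ}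
    (hu : ∀ j, jac z *ᵥ u j = 0) :
    loc e c A (phi z) (fun j => fderiv ℂ phi z (u j))
      = sS z e * (numF A' (Eu z) u / dl ee A' (jac z)) := by
  have h1 : numF A' (Eu z) u / dl ee A' (jac z) = numF A (Eu z) u / dl ee A (jac z) := by
    exact numF_indep ee hA' hA hu fun _ => (eu_spec hz _).1
  have h2 : (fun j => fderiv ℂ (psi c.1 c.2) (phi z) (fderiv ℂ phi z (u j))) = u :=
    funext fun j => dpsi_dphi hz hc (hu j)
  rw [h1, loc_eq, psi_phi hz hc, h2, div_mul_eq_mul_div, mul_div_assoc]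

theorem om_apply {z} (hz : z ∈ Zz) (e) {A} (hA : dl ee A (jac z) ≠ 0) {u : Fin 4 → Vm → ℂ}
    (hu : ∀ j, jac z *ᵥ u j = 0) :
    om e (phi z) (fun j => fderiv ℂ phi z (u j)) = sS z e * (numF A (Eu z) u / dl ee A (jac z)) := by
  rw [om, psi_phi hz (ch_valid hz)]
  exact loc_apply hz e (ch_valid hz) (Ac_ne hz) hA hu

theorem hasFDerivAt_diag {α : Type} [Fintype α] (d x : α → ℂ) :
    ∃ L : (α → ℂ) →L[ℂ] (α → ℂ), HasFDerivAt (fun y j => d j * y j) L x ∧
      ∀ v, L v = fun j => d j * v j := by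
  refine ⟨ContinuousLinearMap.pi fun j => d j • ContinuousLinearMap.proj j, ?_, fun v => rfl⟩
  exact (ContinuousLinearMap.pi fun j => d j •
    ContinuousLinearMap.proj (R := ℂ) (φ := fun _ : α => ℂ) j).hasFDerivAt

theorem dphi_act {c : Ka → ℂ} (hc : ∀ k, c k ≠ 0) (z u) :
    fderiv ℂ phi (act c z) (act c u) = scale blk c (fderiv ℂ phi z u) := by
  obtain ⟨L, hL, hL'⟩ := hasFDerivAt_diag (dd c) z
  obtain ⟨L₂, hL₂, hL₂'⟩ := hasFDerivAt_diag (fun j => c (blk j)) (phi z)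
  have h1 := (dphi (act c z)).comp z (f := act c) hL
  have h2 := hL₂.comp z (dphi z)
  have h3 : phi ∘ act c = (fun y j => c (blk j) * y j) ∘ phi := funext fun w => phi_act hc w
  rw [h3] at h1
  have := congrArg (fun T => T u) (h1.unique h2)
  simp only [ContinuousLinearMap.comp_apply, hL', hL₂'] at this
  exact this

theorem jac_act {c : Ka → ℂ} (hc : ∀ k, c k ≠ 0) (z) :
    jac (act c z) * diagonal (dd c) = diagonal (fun r : Fin 3 × Fin 2 => c (some r.1) ^ 3) * jac z := by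
  obtain ⟨L, hL, hL'⟩ := hasFDerivAt_diag (dd c) z
  obtain ⟨L₂, hL₂, hL₂'⟩ := hasFDerivAt_diag (fun r : Fin 3 × Fin 2 => c (some r.1) ^ 3) (eqn z)
  have d := fun z => (isPoly_eqn.analyticAt_pi z).differentiableAt.hasFDerivAt
  have h1 := (d (act c z)).comp z (f := act c) hL
  have h2 := hL₂.comp z (d z)
  have h3 : eqn ∘ act c = (fun y (r : Fin 3 × Fin 2) => c (some r.1) ^ 3 * y r) ∘ eqn :=
    funext fun w => eqn_act hc w
  rw [h3] at h1
  refine ext_iff_mulVec.2 fun u => ?_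
  have := congrArg (fun T => T u) (h1.unique h2)
  simp only [ContinuousLinearMap.comp_apply, hL', hL₂'] at this
  rw [← mulVec_mulVec, ← mulVec_mulVec, jac_mulVec, jac_mulVec]
  have e1 : diagonal (dd c) *ᵥ u = fun j => dd c j * u j := funext fun j => mulVec_diagonal _ _ _
  rw [e1, this]
  funext r; rw [mulVec_diagonal]

theorem prod_dd {c : Ka → ℂ} (hc : ∀ k, c k ≠ 0) :
    ((∏ i, c (some i) ^ 3) / c none) * ∏ j, dd c j = ∏ r : Fin 3 × Fin 2, c (some r.1) ^ 3 := by
  have h0 := hc none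
  have h1 := hc (some 0)
  have h2 := hc (some 1)
  have h3 := hc (some 2)
  have e0 : (Finset.univ.erase 0 : Finset (Fin 3)) = {1, 2} := by decide
  have e1 : (Finset.univ.erase 1 : Finset (Fin 3)) = {0, 2} := by decide
  have e2 : (Finset.univ.erase 2 : Finset (Fin 3)) = {0, 1} := by decide
  simp only [Fintype.prod_sum_type, Fintype.prod_prod_type, dd, mk, Sum.elim_inl, Sum.elim_inr,
    Fin.prod_univ_three, Fin.prod_univ_two, e0, e1, e2]
  rw [Finset.prod_pair (by decide), Finset.prod_pair (by decide), Finset.prod_pair (by decide)]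
  field_simp

theorem form_om (e : Fin 2) : Form blk Xx 4 (om e) := by
  constructor
  · rintro _ ⟨z, hz, rfl⟩ v hv c
    choose u hu hv using fun j => (tangent_Xx hz).1 (hv j)
    obtain rfl : v = fun j => fderiv ℂ phi z (u j) := funext hv
    constructor
    · rintro ⟨j, hj⟩
      rw [om_apply hz e (Ac_ne hz) hu, numF_vertical _ _ u j c, zero_div, mul_zero]
      simp only at hj
      rw [← eu_eq_sum, ← dpsi_dphi hz (ch_valid hz) (hu j), hj, ← (eu_spec hz c).2,
        dpsi_dphi hz (ch_valid hz) (eu_spec hz c).1]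
    · intro hc
      have hz' := act_mem hc hz
      have hA := Ac_ne hz'
      set A := Ac (act c z)
      have hs := dl_scale ee A (jac_act hc z)
      have hD : ∏ j, dd c j ≠ 0 := Finset.prod_ne_zero_iff.2 fun j _ => dd_ne hc j
      have hA' : dl ee (A * diagonal (dd c)) (jac z) ≠ 0 := by
        intro h0; rw [h0, mul_zero] at hs; exact mul_ne_zero hA hD hs.symm
      have e1 : ∀ w, act c w = diagonal (dd c) *ᵥ w := fun w =>
        funext fun j => (mulVec_diagonal _ _ _).symm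
      have hu' : ∀ j, jac (act c z) *ᵥ act c (u j) = 0 := by
        intro j
        rw [e1 (u j), mulVec_mulVec, jac_act hc, ← mulVec_mulVec, hu, mulVec_zero]
      simp only [← dphi_act hc, ← phi_act hc]
      rw [om_apply hz' e hA hu', om_apply hz e hA' hu]
      have e2 : numF A (Eu (act c z)) (fun j => act c (u j))
          = numF (A * diagonal (dd c)) (Eu z) u := by
        rw [← numF_diag]
        congr 2
        funext k l
        change wt _ l * (dd c l * z l) = dd c l * (wt _ l * z l)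
        ring
      rw [← prod_dd hc] at hs
      rw [e2]
      change (∏ i, c (some i) ^ 3) / c none * sS z e * _ = _
      have : dl ee A (jac (act c z)) = (∏ i, c (some i) ^ 3) / c none
          * dl ee (A * diagonal (dd c)) (jac z) := by
        apply mul_right_cancel₀ hD
        linear_combination -hs
      have h5 : (∏ i, c (some i) ^ 3) / c none ≠ 0 := dd_ne hc (Sum.inl 0)
      rw [this]
      generalize (∏ i, c (some i) ^ 3) / c none = w at h5
      field_simp
  · rintro _ ⟨z₀, hz₀, rfl⟩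
    have hc := ch_valid hz₀
    set c := ch (phi z₀)
    have hψ := analyticAt_psi hc
    have hJ : ∀ r j, AnalyticAt ℂ (fun y => jac (psi c.1 c.2 y) r j) (phi z₀) := by
      intro r j
      have h1 : AnalyticAt ℂ (fun w => fderiv ℂ eqn w (Pi.single j 1) r) (psi c.1 c.2 (phi z₀)) := by
        obtain ⟨i, e⟩ := r
        simp only [fderiv_eqn]
        exact IsPoly.analyticAt (by fun_prop) _
      simp only [jac, LinearMap.toMatrix'_apply, ContinuousLinearMap.coe_coe]
      exact h1.comp hψ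
    have hdl : AnalyticAt ℂ (fun y => dl ee (Ac z₀) (jac (psi c.1 c.2 y))) (phi z₀) := by
      exact analyticAt_dl _ _ hJ
    have hdl0 : dl ee (Ac z₀) (jac (psi c.1 c.2 (phi z₀))) ≠ 0 := by
      rw [psi_phi hz₀ hc]; exact Ac_ne hz₀
    refine ⟨loc e c (Ac z₀), fun v => ?_, ?_⟩
    · simp only [loc_eq]
      refine ((analyticAt_pi_iff.1 hψ _).div hdl hdl0).mul (analyticAt_numF _ ?_ ?_)
      · exact fun k l => analyticAt_const.mul (analyticAt_pi_iff.1 hψ l)
      · exact fun r l => analyticAt_pi_iff.1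
          (((ContinuousLinearMap.apply ℂ (Vm → ℂ) (v r)).analyticAt _).comp hψ.fderiv) l
    · filter_upwards [hc.eventually, hdl.continuousAt.eventually_ne hdl0]
      rintro _ h1 h2 ⟨z, hz, rfl⟩ v hv
      choose u hu hv using fun j => (tangent_Xx hz).1 (hv j)
      obtain rfl : v = fun j => fderiv ℂ phi z (u j) := funext hv
      rw [psi_phi hz h1] at h2
      rw [om_apply hz e h2 hu, loc_apply hz e h1 h2 h2 hu]

theorem exists_numF_ne {z} (hz : z ∈ Zz) :
    ∃ u : Fin 4 → Vm → ℂ, (∀ j, jac z *ᵥ u j = 0) ∧ numF (Ac z) (Eu z) u ≠ 0 := by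
  have hA := Ac_ne hz
  have h1 : LinearIndependent ℂ fun k => Ac z *ᵥ Eu z k := by
    rw [Fintype.linearIndependent_iff]
    intro c hc
    have h2 : eu c z = 0 := by
      refine inj_of_dl ee hA ?_ (eu_spec hz c).1
      rw [eu_eq_sum, mulVec_sum, ← hc]
      simp only [mulVec_smul]
    have h3 : ∀ i, c (some i) = 0 := by
      intro i
      obtain ⟨k, hk⟩ := hz.1.2 i
      exact (mul_eq_zero.1 (congrFun h2 (Sum.inr (Sum.inr (i, k))))).resolve_right hk
    rintro (_ | i)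
    · obtain ⟨i, hi⟩ := hz.1.1
      have : c none - 3 * ∑ j ∈ Finset.univ.erase i, c (some j) = 0 :=
        (mul_eq_zero.1 (congrFun h2 (Sum.inr (Sum.inl i)))).resolve_right hi
      simpa [h3] using this
    · exact h3 i
  obtain ⟨v, hv⟩ := exists_ext (Equiv.refl (Fin 4 ⊕ Ka)) h1
  choose u hu hu' using fun j => exists_solve ee hA (v j) 0
  refine ⟨u, hu', numF_ne _ _ _ ?_⟩
  simpa only [hu] using hv

/-- A solution of the two linear equations. -/
noncomputable def sol (i : Fin 3) (y : Fin 2 → ℂ) (h : ℂ) : Fin 3 → ℂ :=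
  ![y 0 - (y 1 - cc i 0 * y 0) + h, y 1 - cc i 0 * y 0 - 2 * h, h]

theorem sum_sol (i y h) (e : Fin 2) : ∑ k, cc i k ^ e.val * sol i y h k = y e := by
  fin_cases e <;> simp [sol, Fin.sum_univ_three, cc_one, cc_two] <;> ring

theorem eq_sol {i} {y : Fin 2 → ℂ} {q : Fin 3 → ℂ} (h : ∀ e : Fin 2, ∑ k, cc i k ^ e.val * q k = y e) :
    q = sol i y (q 2) := by
  have h0 := h 0
  have h1 := h 1
  simp only [Fin.sum_univ_three, cc_one, cc_two, Fin.val_zero, pow_zero, Fin.val_one, pow_one]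
    at h0 h1
  funext k
  fin_cases k
  · change q 0 = y 0 - (y 1 - cc i 0 * y 0) + q 2
    linear_combination (1 + cc i 0) * h0 - h1
  · change q 1 = y 1 - cc i 0 * y 0 - 2 * q 2
    linear_combination h1 - cc i 0 * h0
  · rfl

theorem exists_Zz (s : Fin 2 → ℂ) : ∃ z ∈ Zz, sS z = s := by
  choose p hp using fun j : Fin 3 × Fin 3 =>
    IsAlgClosed.exists_pow_nat_eq (sol j.1 s 1 j.2) (n := 3) three_pos
  refine ⟨mk s (fun _ => 1) p, ⟨⟨⟨0, one_ne_zero⟩, fun i => ⟨2, fun h => ?_⟩⟩, ?_⟩, rfl⟩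
  · have := hp (i, 2)
    rw [pP_mk] at h
    simp [h, sol] at this
  · refine eqn_iff.2 fun i e => ?_
    simp only [pP_mk, aA_mk, sS_mk, uu, hp, sum_sol, one_mul]

theorem om_indep (c₁ c₂ : ℂ) (h : ∀ x ∈ Xx, ∀ v : Fin 4 → Io → ℂ,
    (∀ j, v j ∈ tangentConeAt ℂ Xx x) → c₁ * om 0 x v + c₂ * om 1 x v = 0) : c₁ = 0 ∧ c₂ = 0 := by
  have key : ∀ s : Fin 2 → ℂ, c₁ * s 0 + c₂ * s 1 = 0 := by
    intro s
    obtain ⟨z, hz, rfl⟩ := exists_Zz s
    obtain ⟨u, hu, h1⟩ := exists_numF_ne hz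
    have := h _ ⟨z, hz, rfl⟩ _ fun j => (tangent_Xx hz).2 ⟨u j, hu j, rfl⟩
    rw [om_apply hz _ (Ac_ne hz) hu, om_apply hz _ (Ac_ne hz) hu] at this
    apply mul_right_cancel₀ (div_ne_zero h1 (Ac_ne hz))
    linear_combination this
  exact ⟨by simpa using key ![1, 0], by simpa using key ![0, 1]⟩

end Pool.Agent.Lib.MP_1478a0_ag
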