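import Pool.Agent.Lib.MP_1478a0_ag.Smooth

/-! The fourfold: Cox coordinates, embedding, smoothness. -/

namespace Pool.Agent.Lib.MP_1478a0_ag

open Filter Topology Module Matrix

abbrev Vm : Type := Fin 2 ⊕ Fin 3 ⊕ Fin 3 × Fin 3
abbrev Io : Type := (Fin 3 × Fin 3) ⊕ (Fin 3 × (Fin 3 → Fin 3))
abbrev Ka : Type := Option (Fin 3)

def blk : Io → Ka := Sum.elim (fun j => some j.1) fun _ => none

noncomputable def cc (i k : Fin 3) : ℂ := ((3 * i.val + k.val : ℕ) : ℂ)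

theorem cc_inj {i k j l : Fin 3} (h : cc i k = cc j l) : i = j ∧ k = l := by
  have : 3 * i.val + k.val = 3 * j.val + l.val := Nat.cast_injective (R := ℂ) h
  constructor <;> (apply Fin.ext; omega)

theorem cc_one (i : Fin 3) : cc i 1 = cc i 0 + 1 := by simp [cc]
theorem cc_two (i : Fin 3) : cc i 2 = cc i 0 + 2 := by simp [cc]

/-- The two cubic forms spanning the pencil on the `i`-th plane. -/
noncomputable def uu (i : Fin 3) (e : Fin 2) (p : Fin 3 × Fin 3 → ℂ) : ℂ :=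
  ∑ k, cc i k ^ e.val * p (i, k) ^ 3

def sS (z : Vm → ℂ) : Fin 2 → ℂ := fun e => z (Sum.inl e)
def aA (z : Vm → ℂ) : Fin 3 → ℂ := fun i => z (Sum.inr (Sum.inl i))
def pP (z : Vm → ℂ) : Fin 3 × Fin 3 → ℂ := fun j => z (Sum.inr (Sum.inr j))
def mk (s : Fin 2 → ℂ) (a : Fin 3 → ℂ) (p : Fin 3 × Fin 3 → ℂ) : Vm → ℂ := Sum.elim s (Sum.elim a p)

@[simp] theorem sS_mk (s a p) : sS (mk s a p) = s := rfl
@[simp] theorem aA_mk (s a p) : aA (mk s a p) = a := rfl
@[simp] theorem pP_mk (s a p) : pP (mk s a p) = p := rfl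
theorem mk_eta (z : Vm → ℂ) : mk (sS z) (aA z) (pP z) = z := by
  funext j; rcases j with j | j | j <;> rfl

section
variable {E : Type} [NormedAddCommGroup E] [NormedSpace ℂ E]

@[fun_prop] theorem IsPoly.uu (i e) {f : E → Fin 3 × Fin 3 → ℂ} (hf : IsPoly f) :
    IsPoly fun x => uu i e (f x) := by unfold MP_1478a0_ag.uu; fun_prop
@[fun_prop] theorem IsPoly.sS {f : E → Vm → ℂ} (hf : IsPoly f) : IsPoly fun x => sS (f x) := by
  unfold MP_1478a0_ag.sS; fun_prop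
@[fun_prop] theorem IsPoly.aA {f : E → Vm → ℂ} (hf : IsPoly f) : IsPoly fun x => aA (f x) := by
  unfold MP_1478a0_ag.aA; fun_prop
@[fun_prop] theorem IsPoly.pP {f : E → Vm → ℂ} (hf : IsPoly f) : IsPoly fun x => pP (f x) := by
  unfold MP_1478a0_ag.pP; fun_prop
@[fun_prop] theorem IsPoly.mk {f : E → Fin 2 → ℂ} {g : E → Fin 3 → ℂ} {h : E → Fin 3 × Fin 3 → ℂ}
    (hf : IsPoly f) (hg : IsPoly g) (hh : IsPoly h) : IsPoly fun x => mk (f x) (g x) (h x) := by
  unfold MP_1478a0_ag.mk; fun_prop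
end

noncomputable def eqn (z : Vm → ℂ) : Fin 3 × Fin 2 → ℂ :=
  fun r => uu r.1 r.2 (pP z) - aA z r.1 * sS z r.2

def Zo : Set (Vm → ℂ) := {z | (∃ i, aA z i ≠ 0) ∧ ∀ i, ∃ k, pP z (i, k) ≠ 0}

def Zz : Set (Vm → ℂ) := {z ∈ Zo | eqn z = 0}

noncomputable def pq (i : Fin 3) (f : Fin 3 → Fin 3) (p : Fin 3 × Fin 3 → ℂ) : ℂ :=
  ∏ j ∈ Finset.univ.erase i, p (j, f j) ^ 3

noncomputable def phi (z : Vm → ℂ) : Io → ℂ :=
  Sum.elim (pP z) fun j => aA z j.1 * pq j.1 j.2 (pP z)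

def Xx : Set (Io → ℂ) := phi '' Zz

def pI (y : Io → ℂ) : Fin 3 × Fin 3 → ℂ := fun j => y (Sum.inl j)

@[simp] theorem pI_phi (z) : pI (phi z) = pP z := rfl

noncomputable def psi (i₀ : Fin 3) (f : Fin 3 → Fin 3) (y : Io → ℂ) : Vm → ℂ :=
  mk (fun e => uu i₀ e (pI y) / (y (Sum.inr (i₀, f)) / pq i₀ f (pI y)))
    (fun i => y (Sum.inr (i, f)) / pq i f (pI y)) (pI y)

def Valid (i₀ : Fin 3) (f : Fin 3 → Fin 3) (y : Io → ℂ) : Prop :=
  (∀ j, pI y (j, f j) ≠ 0) ∧ y (Sum.inr (i₀, f)) ≠ 0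

section
variable {E : Type} [NormedAddCommGroup E] [NormedSpace ℂ E]
@[fun_prop] theorem IsPoly.pq (i g) {f : E → Fin 3 × Fin 3 → ℂ} (hf : IsPoly f) :
    IsPoly fun x => pq i g (f x) := by unfold MP_1478a0_ag.pq; fun_prop
@[fun_prop] theorem IsPoly.pI {f : E → Io → ℂ} (hf : IsPoly f) : IsPoly fun x => pI (f x) := by
  unfold MP_1478a0_ag.pI; fun_prop
@[fun_prop] theorem IsPoly.phi {f : E → Vm → ℂ} (hf : IsPoly f) : IsPoly fun x => phi (f x) := by
  unfold MP_1478a0_ag.phi; fun_prop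
@[fun_prop] theorem IsPoly.eqn {f : E → Vm → ℂ} (hf : IsPoly f) : IsPoly fun x => eqn (f x) := by
  unfold MP_1478a0_ag.eqn; fun_prop
end

theorem isPoly_phi : IsPoly phi := IsPoly.phi isPoly_id
theorem isPoly_eqn : IsPoly eqn := IsPoly.eqn isPoly_id

theorem pq_ne {i f p} (h : ∀ j, p (j, f j) ≠ 0) : pq i f p ≠ 0 :=
  Finset.prod_ne_zero_iff.2 fun j _ => pow_ne_zero _ (h j)

theorem eqn_iff {z : Vm → ℂ} : eqn z = 0 ↔ ∀ i e, uu i e (pP z) = aA z i * sS z e := by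
  simp only [funext_iff, Prod.forall, eqn, Pi.zero_apply, sub_eq_zero]

theorem psi_phi {z i₀ f} (hz : z ∈ Zz) (h : Valid i₀ f (phi z)) : psi i₀ f (phi z) = z := by
  have h1 : ∀ i, pq i f (pP z) ≠ 0 := fun i => pq_ne h.1
  have h2 : aA z i₀ ≠ 0 := left_ne_zero_of_mul h.2
  have h3 : ∀ i, phi z (Sum.inr (i, f)) / pq i f (pP z) = aA z i := fun i =>
    mul_div_cancel_right₀ _ (h1 i)
  simp only [psi, pI_phi, h3, eqn_iff.1 hz.2, mul_div_cancel_left₀ _ h2]
  exact mk_eta z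

theorem exists_valid {z} (hz : z ∈ Zo) : ∃ i₀ f, Valid i₀ f (phi z) := by
  obtain ⟨⟨i, hi⟩, h⟩ := hz
  choose f hf using h
  exact ⟨i, f, hf, mul_ne_zero hi (pq_ne hf)⟩

theorem Valid.eventually {i₀ f y} (h : Valid i₀ f y) : ∀ᶠ x in 𝓝 y, Valid i₀ f x := by
  refine (eventually_all.2 fun j => ?_).and ?_
  · exact (continuous_apply _).continuousAt.eventually_ne (h.1 j)
  · exact (continuous_apply _).continuousAt.eventually_ne h.2

theorem analyticAt_psi {i₀ f y} (h : Valid i₀ f y) : AnalyticAt ℂ (psi i₀ f) y := by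
  have h1 : ∀ i, AnalyticAt ℂ (fun y : Io → ℂ => y (Sum.inr (i, f)) / pq i f (pI y)) y := fun i =>
    (IsPoly.analyticAt (by fun_prop) y).div (IsPoly.analyticAt (by fun_prop) y) (pq_ne h.1)
  refine analyticAt_pi_iff.2 ?_
  rintro (e | i | j)
  · exact (IsPoly.analyticAt (f := fun y => uu i₀ e (pI y)) (by fun_prop) y).div (h1 i₀)
      (div_ne_zero h.2 (pq_ne h.1))
  · exact h1 i
  · exact IsPoly.analyticAt (f := fun y => pI y j) (by fun_prop) y

theorem Zo_eventually {z} (hz : z ∈ Zo) : ∀ᶠ w in 𝓝 z, w ∈ Zo := by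
  obtain ⟨⟨i, hi⟩, h⟩ := hz
  choose f hf using h
  have h1 : ∀ᶠ w in 𝓝 z, aA w i ≠ 0 := (continuous_apply _).continuousAt.eventually_ne hi
  have h2 : ∀ᶠ w in 𝓝 z, ∀ j, pP w (j, f j) ≠ 0 :=
    eventually_all.2 fun j => (continuous_apply _).continuousAt.eventually_ne (hf j)
  filter_upwards [h1, h2] with w k1 k2
  exact ⟨⟨i, k1⟩, fun j => ⟨f j, k2 j⟩⟩

/-- Transfer of charts from subsets of `Zz` to their images. -/
theorem chart_image {M : Type} [NormedAddCommGroup M] [NormedSpace ℂ M] {Z : Set (Vm → ℂ)}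
    (hZ : Z ⊆ Zz) {z} (hz : z ∈ Z) (h : Chart M Z z) : Chart M (phi '' Z) (phi z) := by
  obtain ⟨i₀, f, hv⟩ := exists_valid (hZ hz).1
  refine h.transfer (isPoly_phi.analyticAt_pi z) (analyticAt_psi hv) (psi_phi (hZ hz) hv) ?_ ?_
  · filter_upwards [isPoly_phi.continuous_pi.continuousAt.eventually hv.eventually] with w h1 hw
    exact ⟨psi_phi (hZ hw) h1, w, hw, rfl⟩
  · filter_upwards [hv.eventually]
    rintro _ h1 ⟨w, hw, rfl⟩
    rw [psi_phi (hZ hw) h1]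
    exact ⟨hw, rfl⟩

/-! The torus action. -/

noncomputable def dd (c : Ka → ℂ) : Vm → ℂ :=
  mk (fun _ => (∏ i, c (some i) ^ 3) / c none)
    (fun j => c none / ∏ i ∈ Finset.univ.erase j, c (some i) ^ 3) fun j => c (some j.1)

noncomputable def act (c : Ka → ℂ) (z : Vm → ℂ) : Vm → ℂ := fun j => dd c j * z j

theorem uu_scale (i e) (c : Fin 3 → ℂ) (p : Fin 3 × Fin 3 → ℂ) :
    uu i e (fun j => c j.1 * p j) = c i ^ 3 * uu i e p := by
  simp only [uu, Finset.mul_sum]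
  exact Finset.sum_congr rfl fun k _ => by ring

theorem pq_scale (i f) (c : Fin 3 → ℂ) (p : Fin 3 × Fin 3 → ℂ) :
    pq i f (fun j => c j.1 * p j) = (∏ j ∈ Finset.univ.erase i, c j ^ 3) * pq i f p := by
  simp only [pq, mul_pow, Finset.prod_mul_distrib]

theorem pP_act (c z) : pP (act c z) = fun j => c (some j.1) * pP z j := rfl

theorem prod_erase_ne {c : Ka → ℂ} (hc : ∀ k, c k ≠ 0) (i : Fin 3) :
    ∏ j ∈ Finset.univ.erase i, c (some j) ^ 3 ≠ 0 :=
  Finset.prod_ne_zero_iff.2 fun _ _ => pow_ne_zero _ (hc _)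

theorem dd_ne {c : Ka → ℂ} (hc : ∀ k, c k ≠ 0) (j) : dd c j ≠ 0 := by
  rcases j with j | j | j
  · exact div_ne_zero (Finset.prod_ne_zero_iff.2 fun _ _ => pow_ne_zero _ (hc _)) (hc _)
  · exact div_ne_zero (hc _) (prod_erase_ne hc j)
  · exact hc _

theorem phi_act {c : Ka → ℂ} (hc : ∀ k, c k ≠ 0) (z) : phi (act c z) = scale blk c (phi z) := by
  funext j
  rcases j with j | ⟨i, f⟩
  · rfl
  · change (c none / ∏ j ∈ Finset.univ.erase i, c (some j) ^ 3) * aA z i * pq i f (pP (act c z))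
      = c none * (aA z i * pq i f (pP z))
    rw [pP_act, pq_scale i f fun j => c (some j)]
    have := prod_erase_ne hc i
    field_simp

theorem eqn_act {c : Ka → ℂ} (hc : ∀ k, c k ≠ 0) (z) :
    eqn (act c z) = fun r => c (some r.1) ^ 3 * eqn z r := by
  funext ⟨i, e⟩
  change uu i e (pP (act c z)) - (c none / ∏ j ∈ Finset.univ.erase i, c (some j) ^ 3) * aA z i *
    ((∏ i, c (some i) ^ 3) / c none * sS z e) = c (some i) ^ 3 * (uu i e (pP z) - aA z i * sS z e)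
  rw [pP_act, uu_scale i e fun j => c (some j), ← Finset.mul_prod_erase _ _ (Finset.mem_univ i)]
  have := prod_erase_ne hc i
  have := hc none
  field_simp

theorem act_mem {c : Ka → ℂ} (hc : ∀ k, c k ≠ 0) {z} (hz : z ∈ Zz) : act c z ∈ Zz := by
  obtain ⟨⟨⟨i, hi⟩, h⟩, h'⟩ := hz
  refine ⟨⟨⟨i, mul_ne_zero (dd_ne hc _) hi⟩, fun j => ?_⟩, ?_⟩
  · obtain ⟨k, hk⟩ := h j
    exact ⟨k, mul_ne_zero (dd_ne hc _) hk⟩
  · rw [eqn_act hc, h']; funext r; simp

theorem mem_cone_blk {y : Io → ℂ} :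
    y ∈ cone blk ↔ (∀ i, ∃ k, pI y (i, k) ≠ 0) ∧ ∃ j, y (Sum.inr j) ≠ 0 := by
  constructor
  · intro h
    refine ⟨fun i => ?_, ?_⟩
    · obtain ⟨j | j, h1, h2⟩ := h (some i)
      · obtain ⟨i', k⟩ := j
        obtain rfl : i' = i := Option.some.inj h1
        exact ⟨k, h2⟩
      · simp [blk] at h1
    · obtain ⟨j | j, h1, h2⟩ := h none
      · simp [blk] at h1
      · exact ⟨j, h2⟩
  · rintro ⟨h1, j, h2⟩ (_ | i)
    · exact ⟨Sum.inr j, rfl, h2⟩
    · obtain ⟨k, hk⟩ := h1 i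
      exact ⟨Sum.inl (i, k), rfl, hk⟩

theorem mul_pq (i f) (p : Fin 3 × Fin 3 → ℂ) :
    p (i, f i) ^ 3 * pq i f p = ∏ j, p (j, f j) ^ 3 :=
  Finset.mul_prod_erase _ (fun j => p (j, f j) ^ 3) (Finset.mem_univ i)

theorem closed_Xx : Closed blk Xx := by
  refine closed_of ?_ ?_ ?_
  · rintro _ ⟨z, hz, rfl⟩ _ ⟨c, hc, rfl⟩
    exact ⟨act c z, act_mem hc hz, phi_act hc z⟩
  · rintro _ ⟨z, hz, rfl⟩
    obtain ⟨i, f, h⟩ := exists_valid hz.1
    exact mem_cone_blk.2 ⟨hz.1.2, _, h.2⟩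
  · intro y hy H
    obtain ⟨h1, ⟨i₀, g⟩, h2⟩ := mem_cone_blk.1 hy
    choose f hf using h1
    have hq : ∀ i, pq i f (pI y) ≠ 0 := fun i => pq_ne hf
    have R1 : ∀ i g, y (Sum.inr (i, g)) * pq i f (pI y) = y (Sum.inr (i, f)) * pq i g (pI y) := by
      intro i g
      refine sub_eq_zero.1 (H (fun y => y (Sum.inr (i, g)) * pq i f (pI y)
        - y (Sum.inr (i, f)) * pq i g (pI y)) (by fun_prop) ?_)
      rintro _ ⟨z, -, rfl⟩
      change aA z i * pq i g (pP z) * pq i f (pP z) - aA z i * pq i f (pP z) * pq i g (pP z) = 0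
      ring
    have R2 : ∀ i e, y (Sum.inr (i, f)) * pI y (i, f i) ^ 3 * uu i₀ e (pI y)
        = y (Sum.inr (i₀, f)) * pI y (i₀, f i₀) ^ 3 * uu i e (pI y) := by
      intro i e
      refine sub_eq_zero.1 (H (fun y => y (Sum.inr (i, f)) * pI y (i, f i) ^ 3 * uu i₀ e (pI y)
        - y (Sum.inr (i₀, f)) * pI y (i₀, f i₀) ^ 3 * uu i e (pI y)) (by fun_prop) ?_)
      rintro _ ⟨z, hz, rfl⟩
      change aA z i * pq i f (pP z) * pP z (i, f i) ^ 3 * uu i₀ e (pP z)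
        - aA z i₀ * pq i₀ f (pP z) * pP z (i₀, f i₀) ^ 3 * uu i e (pP z) = 0
      rw [eqn_iff.1 hz.2, eqn_iff.1 hz.2]
      linear_combination aA z i * aA z i₀ * sS z e * (mul_pq i f (pP z) - mul_pq i₀ f (pP z))
    have h3 : y (Sum.inr (i₀, f)) ≠ 0 := by
      intro h0
      have := R1 i₀ g
      rw [h0, zero_mul] at this
      exact mul_ne_zero h2 (hq i₀) this
    refine ⟨psi i₀ f y, ⟨⟨⟨i₀, div_ne_zero h3 (hq i₀)⟩, fun i => ⟨f i, hf i⟩⟩, ?_⟩, ?_⟩
    · refine eqn_iff.2 fun i e => ?_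
      change uu i e (pI y) = y (Sum.inr (i, f)) / pq i f (pI y) *
        (uu i₀ e (pI y) / (y (Sum.inr (i₀, f)) / pq i₀ f (pI y)))
      have k1 := hq i
      have k2 := hq i₀
      have k3 := pow_ne_zero 3 (hf i)
      field_simp
      apply mul_left_cancel₀ k3
      linear_combination (-pq i₀ f (pI y)) * R2 i e
        + uu i e (pI y) * y (Sum.inr (i₀, f)) * (mul_pq i f (pI y) - mul_pq i₀ f (pI y))
    · funext j
      rcases j with j | ⟨i, g⟩
      · rfl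
      · change y (Sum.inr (i, f)) / pq i f (pI y) * pq i g (pI y) = y (Sum.inr (i, g))
        have k1 := hq i
        field_simp
        linear_combination -R1 i g

/-! The Jacobian. -/

theorem fderiv_eqn (z v : Vm → ℂ) (i e) : fderiv ℂ eqn z v (i, e) =
    ∑ k, cc i k ^ e.val * (3 * pP z (i, k) ^ 2 * pP v (i, k))
      - (aA z i * sS v e + sS z e * aA v i) := by
  have h0 : ∀ j : Vm, HasFDerivAt (fun w : Vm → ℂ => w j)
      (ContinuousLinearMap.proj (R := ℂ) (φ := fun _ : Vm => ℂ) j) z := fun j => hasFDerivAt_apply j z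
  have h1 := (HasFDerivAt.fun_sum (u := Finset.univ) fun k _ =>
    ((h0 (Sum.inr (Sum.inr (i, k)))).pow 3).const_mul (cc i k ^ e.val)).fun_sub
    ((h0 (Sum.inr (Sum.inl i))).fun_mul (h0 (Sum.inl e)))
  have h2 := (hasFDerivAt_pi'.1 (isPoly_eqn.analyticAt_pi z).differentiableAt.hasFDerivAt) (i, e)
  have h3 := congrArg (fun L => L v) (h2.unique h1)
  simpa [pP, aA, sS] using h3

noncomputable def jac (z : Vm → ℂ) : Matrix (Fin 3 × Fin 2) Vm ℂ :=
  LinearMap.toMatrix' (fderiv ℂ eqn z : (Vm → ℂ) →ₗ[ℂ] _)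

theorem jac_mulVec (z v) : jac z *ᵥ v = fderiv ℂ eqn z v := by
  rw [jac, LinearMap.toMatrix'_mulVec]; rfl

theorem jac_indep {z} (hz : z ∈ Zz) : LinearIndependent ℂ (jac z).row := by
  rw [Fintype.linearIndependent_iff]
  intro x hx
  have key : ∀ v, ∑ i, ∑ e, x (i, e) * fderiv ℂ eqn z v (i, e) = 0 := by
    intro v
    have := congrArg (fun w => w ⬝ᵥ v) hx
    simp only [sum_dotProduct, smul_dotProduct, zero_dotProduct, smul_eq_mul] at this
    rw [← jac_mulVec, ← this, Fintype.sum_prod_type]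
    rfl
  have k1 : ∀ i k, pP z (i, k) ≠ 0 → x (i, 0) + x (i, 1) * cc i k = 0 := by
    intro i k hp
    have := key (mk 0 0 (Pi.single (i, k) 1))
    simp only [fderiv_eqn, sS_mk, aA_mk, pP_mk, Pi.zero_apply, mul_zero, add_zero, sub_zero] at this
    rw [Finset.sum_eq_single i (fun j _ hj => by simp [hj]) (by simp)] at this
    simp only [Pi.single_apply, Prod.mk.injEq, true_and, mul_ite, mul_one, mul_zero,
      Finset.sum_ite_eq', Finset.mem_univ, if_true, Fin.sum_univ_two, Fin.val_zero, pow_zero,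
      Fin.val_one, pow_one] at this
    apply mul_left_cancel₀ (mul_ne_zero three_ne_zero (pow_ne_zero 2 hp))
    linear_combination this
  have k2 : ∀ e, ∑ i, x (i, e) * aA z i = 0 := by
    intro e
    have := key (mk (Pi.single e 1) 0 0)
    simp only [fderiv_eqn, sS_mk, aA_mk, pP_mk, Pi.zero_apply, mul_zero, add_zero, zero_sub,
      Finset.sum_const_zero, Pi.single_apply, mul_ite, mul_one, mul_neg, Finset.sum_neg_distrib,
      Finset.sum_ite_eq', Finset.mem_univ, if_true, neg_eq_zero] at this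
    exact this
  have k3 : ∀ i, (x (i, 0) = 0 ∧ x (i, 1) = 0) ∨
      (aA z i ≠ 0 ∧ sS z 0 ≠ 0 ∧ ∃ k, sS z 1 = cc i k * sS z 0) := by
    intro i
    obtain ⟨k, hk⟩ := hz.1.2 i
    by_cases h : ∃ l, l ≠ k ∧ pP z (i, l) ≠ 0
    · obtain ⟨l, hl, hl'⟩ := h
      have h1 : x (i, 1) = 0 := by
        have : cc i l - cc i k ≠ 0 := sub_ne_zero.2 fun h => hl (cc_inj h).2
        apply mul_left_cancel₀ this
        linear_combination k1 i l hl' - k1 i k hk
      left; exact ⟨by simpa [h1] using k1 i k hk, h1⟩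
    · push Not at h
      have h1 : ∀ e, aA z i * sS z e = cc i k ^ e.val * pP z (i, k) ^ 3 := by
        intro e
        rw [← eqn_iff.1 hz.2, uu, Finset.sum_eq_single k (fun l _ hl => by simp [h l hl]) (by simp)]
      have h2 : aA z i * sS z 0 ≠ 0 := by rw [h1]; simpa using hk
      right
      refine ⟨left_ne_zero_of_mul h2, right_ne_zero_of_mul h2, k, ?_⟩
      apply mul_left_cancel₀ (left_ne_zero_of_mul h2)
      have h3 := h1 0
      have h4 := h1 1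
      simp only [Fin.val_zero, pow_zero, Fin.val_one, pow_one] at h3 h4
      linear_combination h4 - cc i k * h3
  rintro ⟨i, e⟩
  rcases k3 i with h | ⟨h1, h2, k, hk⟩
  · fin_cases e
    · exact h.1
    · exact h.2
  · have := k2 e
    rw [Finset.sum_eq_single i ?_ (by simp)] at this
    · exact (mul_eq_zero.1 this).resolve_right h1
    · intro j _ hj
      rcases k3 j with h | ⟨-, -, l, hl⟩
      · fin_cases e
        · exact mul_eq_zero_of_left h.1 _
        · exact mul_eq_zero_of_left h.2 _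
      · exact absurd (cc_inj (mul_right_cancel₀ h2 (hl.symm.trans hk))).1 hj

noncomputable def ee : (Fin 4 ⊕ Ka) ⊕ (Fin 3 × Fin 2) ≃ Vm := Fintype.equivOfCardEq (by simp)

theorem exists_A {z} (hz : z ∈ Zz) : ∃ A, dl ee A (jac z) ≠ 0 := exists_dl ee (jac_indep hz)

theorem eqn_surj {z} (hz : z ∈ Zz) : Function.Surjective (fderiv ℂ eqn z) := by
  obtain ⟨A, hA⟩ := exists_A hz
  intro y
  obtain ⟨v, -, hv⟩ := exists_solve ee hA 0 y
  exact ⟨v, by rw [← jac_mulVec, hv]⟩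

theorem Zz_eventually {z} (hz : z ∈ Zz) : ∀ᶠ w in 𝓝 z, w ∈ Zz ↔ eqn w = 0 :=
  (Zo_eventually hz.1).mono fun _ hw => ⟨fun h => h.2, fun h => ⟨hw, h⟩⟩

theorem smooth_Xx {x} (hx : x ∈ Xx) : SmoothAt Xx x (4 + Fintype.card Ka) := by
  obtain ⟨z, hz, rfl⟩ := hx
  obtain ⟨h1, h2, -⟩ := chart_of_eqs (isPoly_eqn.analyticAt_pi z) (eqn_surj hz) hz.2
    (Zz_eventually hz)
  have := (chart_image subset_rfl hz h1).smoothAt
  simp only [finrank_fintype_fun_eq_card, Fintype.card_prod, Fintype.card_fin,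
    Fintype.card_sum] at h2
  have h3 := Nat.eq_sub_of_add_eq h2
  rw [h3] at this
  exact this

theorem tangent_Zz {z} (hz : z ∈ Zz) {v} : v ∈ tangentConeAt ℂ Zz z ↔ jac z *ᵥ v = 0 := by
  rw [jac_mulVec]
  constructor
  · intro hv
    exact tangent_eq hz (isPoly_eqn.analyticAt_pi z).differentiableAt.hasFDerivAt
      (hasFDerivAt_const (0 : Fin 3 × Fin 2 → ℂ) z) (Eventually.of_forall fun w hw => hw.2) hv
  · exact (chart_of_eqs (isPoly_eqn.analyticAt_pi z) (eqn_surj hz) hz.2 (Zz_eventually hz)).2.2 v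

end Pool.Agent.Lib.MP_1478a0_ag
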