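import Pool.Agent.Lib.MP_1478a0_ag.Defs

/-! Polynomial maps between normed spaces and irreducible sets. -/

namespace Pool.Agent.Lib.MP_1478a0_ag

open MvPolynomial Filter Topology

section
variable {E F G : Type} [NormedAddCommGroup E] [NormedSpace ℂ E] [NormedAddCommGroup F]
  [NormedSpace ℂ F] [NormedAddCommGroup G] [NormedSpace ℂ G]

/-- The algebra of polynomial functions. -/
def polyAlg (E : Type) [NormedAddCommGroup E] [NormedSpace ℂ E] : Subalgebra ℂ (E → ℂ) :=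
  Algebra.adjoin ℂ (Set.range fun l : E →L[ℂ] ℂ => (l : E → ℂ))

@[fun_prop]
def IsPoly (f : E → F) : Prop := ∀ l : F →L[ℂ] ℂ, (fun x => l (f x)) ∈ polyAlg E

theorem isPoly_iff {f : E → ℂ} : IsPoly f ↔ f ∈ polyAlg E := by
  constructor
  · intro h; exact h (ContinuousLinearMap.id ℂ ℂ)
  · intro h l
    have : (fun x => l (f x)) = l 1 • f := by
      funext x
      have := l.map_smul (f x) 1
      simp only [smul_eq_mul, mul_one] at this
      simp [this, mul_comm]
    rw [this]; exact Subalgebra.smul_mem _ h _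

theorem isPoly_clm (L : E →L[ℂ] F) : IsPoly (fun x => L x) := fun l =>
  Algebra.subset_adjoin ⟨l.comp L, rfl⟩

@[fun_prop] theorem isPoly_id : IsPoly (fun x : E => x) := isPoly_clm (ContinuousLinearMap.id ℂ E)

@[fun_prop] theorem isPoly_const (c : F) : IsPoly (fun _ : E => c) := fun l =>
  (polyAlg E).algebraMap_mem (l c)

theorem poly_induction {p : (E → ℂ) → Prop} (hl : ∀ l : E →L[ℂ] ℂ, p l) (hc : ∀ c, p fun _ => c)
    (ha : ∀ f g, IsPoly f → IsPoly g → p f → p g → p (fun x => f x + g x))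
    (hm : ∀ f g, IsPoly f → IsPoly g → p f → p g → p (fun x => f x * g x))
    {f : E → ℂ} (hf : IsPoly f) : p f := by
  rw [isPoly_iff] at hf
  induction hf using Algebra.adjoin_induction with
  | mem f hf => obtain ⟨l, rfl⟩ := hf; exact hl l
  | algebraMap r => exact hc r
  | add f g hf hg h1 h2 => exact ha f g (isPoly_iff.2 hf) (isPoly_iff.2 hg) h1 h2
  | mul f g hf hg h1 h2 => exact hm f g (isPoly_iff.2 hf) (isPoly_iff.2 hg) h1 h2

@[fun_prop] theorem IsPoly.comp {g : F → G} {f : E → F} (hg : IsPoly g) (hf : IsPoly f) :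
    IsPoly (fun x => g (f x)) := by
  intro l
  have h1 : IsPoly (fun y => l (g y)) := isPoly_iff.2 (hg l)
  refine poly_induction (p := fun u => (fun x => u (f x)) ∈ polyAlg E) ?_ ?_ ?_ ?_ h1
  · intro l'; exact hf l'
  · intro c; exact (polyAlg E).algebraMap_mem c
  · intro u v _ _ hu hv; exact (polyAlg E).add_mem hu hv
  · intro u v _ _ hu hv; exact (polyAlg E).mul_mem hu hv

@[fun_prop] theorem IsPoly.add {f g : E → F} (hf : IsPoly f) (hg : IsPoly g) :
    IsPoly (fun x => f x + g x) := fun l => by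
  simp only [map_add]; exact (polyAlg E).add_mem (hf l) (hg l)

@[fun_prop] theorem IsPoly.neg {f : E → F} (hf : IsPoly f) : IsPoly (fun x => -f x) := fun l => by
  simp only [map_neg]; exact (polyAlg E).neg_mem (hf l)

@[fun_prop] theorem IsPoly.sub {f g : E → F} (hf : IsPoly f) (hg : IsPoly g) :
    IsPoly (fun x => f x - g x) := fun l => by
  simp only [map_sub]; exact (polyAlg E).sub_mem (hf l) (hg l)

@[fun_prop] theorem IsPoly.mul {f g : E → ℂ} (hf : IsPoly f) (hg : IsPoly g) :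
    IsPoly (fun x => f x * g x) :=
  isPoly_iff.2 ((polyAlg E).mul_mem (isPoly_iff.1 hf) (isPoly_iff.1 hg))

@[fun_prop] theorem IsPoly.smul {f : E → ℂ} {g : E → F} (hf : IsPoly f) (hg : IsPoly g) :
    IsPoly (fun x => f x • g x) := fun l => by
  simp only [map_smul, smul_eq_mul]
  exact (polyAlg E).mul_mem (isPoly_iff.1 hf) (hg l)

@[fun_prop] theorem IsPoly.pow {f : E → ℂ} (hf : IsPoly f) (n : ℕ) : IsPoly (fun x => f x ^ n) :=
  isPoly_iff.2 ((polyAlg E).pow_mem (isPoly_iff.1 hf) n)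

@[fun_prop] theorem IsPoly.div_const {f : E → ℂ} (hf : IsPoly f) (c : ℂ) :
    IsPoly (fun x => f x / c) := by
  simp only [div_eq_mul_inv]; exact hf.mul (isPoly_const _)

@[fun_prop] theorem IsPoly.sum {α : Type} (s : Finset α) {f : α → E → F}
    (hf : ∀ a, IsPoly (f a)) : IsPoly (fun x => ∑ a ∈ s, f a x) := by
  classical
  induction s using Finset.induction_on with
  | empty => simpa using isPoly_const (0 : F)
  | insert a s ha ih => simp only [Finset.sum_insert ha]; exact (hf a).add ih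

@[fun_prop] theorem IsPoly.prod {α : Type} (s : Finset α) {f : α → E → ℂ}
    (hf : ∀ a, IsPoly (f a)) : IsPoly (fun x => ∏ a ∈ s, f a x) := by
  classical
  induction s using Finset.induction_on with
  | empty => simpa using isPoly_const (1 : ℂ)
  | insert a s ha ih => simp only [Finset.prod_insert ha]; exact (hf a).mul ih

@[fun_prop] theorem isPoly_apply {α : Type} [Fintype α] (i : α) :
    IsPoly (fun x : α → F => x i) :=
  isPoly_clm (ContinuousLinearMap.proj (R := ℂ) (φ := fun _ : α => F) i)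

@[fun_prop] theorem isPoly_pi {α : Type} [Fintype α] {f : E → α → F}
    (hf : ∀ i, IsPoly (fun x => f x i)) : IsPoly (fun x i => f x i) := by
  classical
  have : (fun x i => f x i) = fun x => ∑ i, (ContinuousLinearMap.single ℂ (fun _ : α => F) i) (f x i) := by
    funext x
    simp only [ContinuousLinearMap.single_apply]
    exact (Finset.univ_sum_single (f x)).symm
  rw [this]
  exact IsPoly.sum _ fun i => (isPoly_clm _).comp (hf i)

@[fun_prop] theorem IsPoly.fst {f : E → F × G} (hf : IsPoly f) : IsPoly (fun x => (f x).1) :=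
  (isPoly_clm (ContinuousLinearMap.fst ℂ F G)).comp hf

@[fun_prop] theorem IsPoly.snd {f : E → F × G} (hf : IsPoly f) : IsPoly (fun x => (f x).2) :=
  (isPoly_clm (ContinuousLinearMap.snd ℂ F G)).comp hf

@[fun_prop] theorem IsPoly.prodMk {f : E → F} {g : E → G} (hf : IsPoly f) (hg : IsPoly g) :
    IsPoly (fun x => (f x, g x)) := by
  have : (fun x => (f x, g x)) = fun x => ContinuousLinearMap.inl ℂ F G (f x)
      + ContinuousLinearMap.inr ℂ F G (g x) := by
    funext x; simp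
  rw [this]
  exact ((isPoly_clm _).comp hf).add ((isPoly_clm _).comp hg)

@[fun_prop] theorem IsPoly.sumElim {α β : Type} [Fintype α] [Fintype β] {f : E → α → F}
    {g : E → β → F} (hf : IsPoly f) (hg : IsPoly g) :
    IsPoly (fun x => Sum.elim (f x) (g x)) := by
  refine isPoly_pi (f := fun x => Sum.elim (f x) (g x)) ?_
  rintro (i | i)
  · exact (isPoly_apply i).comp hf
  · exact (isPoly_apply i).comp hg

theorem IsPoly.analyticAt {f : E → ℂ} (hf : IsPoly f) (x : E) : AnalyticAt ℂ f x := by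
  refine poly_induction (p := fun u => AnalyticAt ℂ u x) ?_ ?_ ?_ ?_ hf
  · intro l; exact l.analyticAt x
  · intro c; exact analyticAt_const
  · intro u v _ _ hu hv; exact hu.add hv
  · intro u v _ _ hu hv; exact hu.mul hv

theorem IsPoly.analyticAt_pi {α : Type} [Fintype α] {f : E → α → ℂ} (hf : IsPoly f) (x : E) :
    AnalyticAt ℂ f x :=
  analyticAt_pi_iff.2 fun i => ((isPoly_apply i).comp hf).analyticAt x

theorem IsPoly.continuous {f : E → ℂ} (hf : IsPoly f) : Continuous f :=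
  continuous_iff_continuousAt.2 fun x => (hf.analyticAt x).continuousAt

theorem IsPoly.continuous_pi {α : Type} [Fintype α] {f : E → α → ℂ} (hf : IsPoly f) :
    Continuous f :=
  continuous_iff_continuousAt.2 fun x => (hf.analyticAt_pi x).continuousAt

theorem isPoly_eval {ι : Type} [Fintype ι] (P : MvPolynomial ι ℂ) :
    IsPoly (fun x : ι → ℂ => eval x P) := by
  induction P using MvPolynomial.induction_on with
  | C a => simpa using isPoly_const a
  | add p q hp hq => simpa using hp.add hq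
  | mul_X p i hp => simpa using hp.mul (isPoly_apply i)

theorem IsPoly.exists_eval {ι : Type} [Fintype ι] {f : (ι → ℂ) → ℂ} (hf : IsPoly f) :
    ∃ P : MvPolynomial ι ℂ, ∀ x, eval x P = f x := by
  classical
  refine poly_induction (p := fun u => ∃ P : MvPolynomial ι ℂ, ∀ x, eval x P = u x) ?_ ?_ ?_ ?_ hf
  · intro l
    refine ⟨∑ i, C (l (Pi.single i 1)) * X i, fun x => ?_⟩
    conv_rhs => rw [← Finset.univ_sum_single x]
    simp only [map_sum, map_mul, eval_C, eval_X]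
    refine Finset.sum_congr rfl fun i _ => ?_
    have : (Pi.single i (x i) : ι → ℂ) = x i • Pi.single i 1 := by
      rw [← Pi.single_smul]; simp
    rw [this, map_smul, smul_eq_mul, mul_comm]
  · intro c; exact ⟨C c, fun x => by simp⟩
  · rintro u v _ _ ⟨P, hP⟩ ⟨Q, hQ⟩; exact ⟨P + Q, fun x => by simp [hP, hQ]⟩
  · rintro u v _ _ ⟨P, hP⟩ ⟨Q, hQ⟩; exact ⟨P * Q, fun x => by simp [hP, hQ]⟩

/-- A nonzero polynomial function is nonzero on a dense set. -/
theorem IsPoly.dense_ne {f : E → ℂ} (hf : IsPoly f) {x₀ : E} (h : f x₀ ≠ 0) :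
    Dense {x | f x ≠ 0} := by
  intro x
  by_contra hx
  have h1 : f =ᶠ[𝓝 x] 0 := by
    rw [mem_closure_iff_frequently, not_frequently] at hx
    filter_upwards [hx] with y hy
    simpa using hy
  have h2 : AnalyticOnNhd ℂ f Set.univ := fun y _ => hf.analyticAt y
  exact h (h2.eqOn_zero_of_preconnected_of_eventuallyEq_zero isPreconnected_univ
    (Set.mem_univ x) h1 (Set.mem_univ x₀))

theorem IsPoly.isOpen_ne {f : E → ℂ} (hf : IsPoly f) : IsOpen {x | f x ≠ 0} :=
  isOpen_ne_fun hf.continuous continuous_const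

/-- Finitely many nonzero polynomial functions are simultaneously nonzero on a dense set. -/
theorem dense_forall_ne {α : Type} [Finite α] {f : α → E → ℂ} (hf : ∀ a, IsPoly (f a))
    (h : ∀ a, ∃ x, f a x ≠ 0) : Dense {x | ∀ a, f a x ≠ 0} := by
  classical
  have key : ∀ s : Finset α, Dense {x | ∀ a ∈ s, f a x ≠ 0} := by
    intro s
    induction s using Finset.induction_on with
    | empty => simp
    | insert a s ha ih =>
      obtain ⟨x₀, hx₀⟩ := h a
      refine (((hf a).dense_ne hx₀).inter_of_isOpen_left ih (hf a).isOpen_ne).mono ?_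
      rintro x ⟨h1, h2⟩ b hb
      rcases Finset.mem_insert.1 hb with rfl | hb
      · exact h1
      · exact h2 b hb
  have := Fintype.ofFinite α
  simpa using key Finset.univ

/-- Irreducibility, in terms of polynomial functions. -/
def Irr (S : Set E) : Prop :=
  S.Nonempty ∧ ∀ f g : E → ℂ, IsPoly f → IsPoly g → (∀ x ∈ S, f x * g x = 0) →
    (∀ x ∈ S, f x = 0) ∨ ∀ x ∈ S, g x = 0

theorem Irr.isPrime {ι : Type} [Fintype ι] {S : Set (ι → ℂ)} (h : Irr S) :
    (vanishingIdeal ℂ S).IsPrime := by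
  constructor
  · intro ht
    obtain ⟨x, hx⟩ := h.1
    have : (1 : MvPolynomial ι ℂ) ∈ vanishingIdeal ℂ S := by rw [ht]; trivial
    simpa using this x hx
  · intro P Q hPQ
    have := h.2 _ _ (isPoly_eval P) (isPoly_eval Q) fun x hx => by
      simpa [coe_aeval_eq_eval] using hPQ x hx
    rcases this with h1 | h1
    · left; intro x hx; simpa [coe_aeval_eq_eval] using h1 x hx
    · right; intro x hx; simpa [coe_aeval_eq_eval] using h1 x hx

theorem irr_univ : Irr (Set.univ : Set E) := by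
  refine ⟨Set.univ_nonempty, fun f g hf hg h => ?_⟩
  by_contra hc
  push Not at hc
  obtain ⟨⟨x, -, hx⟩, ⟨y, -, hy⟩⟩ := hc
  obtain ⟨z, hz1, hz2⟩ := ((hf.dense_ne hx).inter_of_isOpen_left (hg.dense_ne hy)
    hf.isOpen_ne).nonempty
  exact mul_ne_zero hz1 hz2 (h z trivial)

theorem Irr.prod {S : Set E} {T : Set F} (hS : Irr S) (hT : Irr T) : Irr (S ×ˢ T) := by
  refine ⟨hS.1.prod hT.1, fun f g hf hg h => ?_⟩
  by_contra hc
  push Not at hc
  obtain ⟨⟨⟨x, y⟩, ⟨hx, hy⟩, h1⟩, ⟨⟨x', y'⟩, ⟨hx', hy'⟩, h2⟩⟩ := hc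
  have key : ∀ u ∈ S, f (u, y) * g (u, y') = 0 := by
    intro u hu
    rcases hT.2 (fun v => f (u, v)) (fun v => g (u, v)) (by fun_prop) (by fun_prop)
      (fun v hv => h (u, v) ⟨hu, hv⟩) with h3 | h3
    · rw [h3 y hy, zero_mul]
    · rw [h3 y' hy', mul_zero]
  rcases hS.2 (fun u => f (u, y)) (fun u => g (u, y')) (by fun_prop) (by fun_prop) key with h3 | h3
  · exact h1 (h3 x hx)
  · exact h2 (h3 x' hx')

/-- The closure of the image of an open part of an irreducible set is irreducible. -/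
theorem Irr.of_dense {S : Set E} {X : Set F} (hS : Irr S) {Φ : E → F} (hΦ : IsPoly Φ)
    {h : E → ℂ} (hh : IsPoly h) (hne : X.Nonempty) (h1 : ∀ x ∈ S, h x ≠ 0 → Φ x ∈ X)
    (h2 : X ⊆ closure (Φ '' {x ∈ S | h x ≠ 0})) : Irr X := by
  refine ⟨hne, fun f g hf hg hfg => ?_⟩
  have key : ∀ {u : F → ℂ}, IsPoly u → (∀ x ∈ S, h x ≠ 0 → u (Φ x) = 0) → ∀ y ∈ X, u y = 0 := by
    intro u hu h3 y hy
    have : closure (Φ '' {x ∈ S | h x ≠ 0}) ⊆ {y | u y = 0} := by
      refine closure_minimal ?_ (isClosed_eq hu.continuous continuous_const)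
      rintro _ ⟨x, ⟨hx, hx'⟩, rfl⟩
      exact h3 x hx hx'
    exact this (h2 hy)
  rcases hS.2 (fun x => f (Φ x) * h x) (fun x => g (Φ x)) (by fun_prop) (by fun_prop)
    (fun x hx => by
      by_cases hx' : h x = 0
      · simp [hx']
      · have := hfg _ (h1 x hx hx')
        linear_combination h x * this) with h3 | h3
  · left; exact key hf fun x hx hx' => (mul_eq_zero.1 (h3 x hx)).resolve_right hx'
  · right; exact key hg fun x hx _ => h3 x hx

theorem Irr.image {S : Set E} (hS : Irr S) {Φ : E → F} (hΦ : IsPoly Φ) : Irr (Φ '' S) := by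
  refine hS.of_dense hΦ (h := fun _ => 1) (by fun_prop) (hS.1.image _)
    (fun x hx _ => ⟨x, hx, rfl⟩) ?_
  rintro _ ⟨x, hx, rfl⟩
  exact subset_closure ⟨x, ⟨hx, one_ne_zero⟩, rfl⟩

/-- A locally analytically trivial family of irreducible sets over a connected open subset of the
line has irreducible total space. -/
theorem irr_family {D : Set ℂ} (hDo : IsOpen D) (hD : IsPreconnected D) (hne : D.Nonempty)
    {Y : ℂ → Set E} (hY : ∀ t ∈ D, Irr (Y t))
    (hloc : ∀ t₀ ∈ D, ∃ (B : Set ℂ) (U : Type) (Φ : U → ℂ → E), IsOpen B ∧ IsPreconnected B ∧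
      t₀ ∈ B ∧ (∀ u, ∀ t ∈ B, ∀ f : E → ℂ, IsPoly f → AnalyticAt ℂ (fun s => f (Φ u s)) t) ∧
      ∀ t ∈ B, Y t = Set.range fun u => Φ u t) :
    Irr {x | ∃ t ∈ D, x ∈ Y t} := by
  obtain ⟨t₁, ht₁⟩ := hne
  obtain ⟨x₁, hx₁⟩ := (hY t₁ ht₁).1
  refine ⟨⟨x₁, t₁, ht₁, hx₁⟩, fun f g hf hg hfg => ?_⟩
  have key : ∀ {u : E → ℂ}, IsPoly u → ∀ t₀ ∈ D, (∃ᶠ t in 𝓝[≠] t₀, ∀ x ∈ Y t, u x = 0) →
      ∀ᶠ t in 𝓝 t₀, ∀ x ∈ Y t, u x = 0 := by
    intro u hu t₀ ht₀ hfr
    obtain ⟨B, U, Φ, hBo, hB, hB0, hΦ, hYB⟩ := hloc t₀ ht₀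
    have hB' : ∀ᶠ t in 𝓝 t₀, t ∈ B := hBo.mem_nhds hB0
    filter_upwards [hB'] with t ht x hx
    rw [hYB t ht] at hx
    obtain ⟨a, rfl⟩ := hx
    have han : AnalyticOnNhd ℂ (fun s => u (Φ a s)) B := fun s hs => hΦ a s hs u hu
    refine han.eqOn_zero_of_preconnected_of_frequently_eq_zero hB hB0 ?_ ht
    refine (hfr.and_eventually (hB'.filter_mono nhdsWithin_le_nhds)).mono ?_
    rintro s ⟨h1, h2⟩
    exact h1 _ (by rw [hYB s h2]; exact ⟨a, rfl⟩)
  have key2 : ∀ {u : E → ℂ}, IsPoly u → ∀ t₀ ∈ D, (∀ᶠ t in 𝓝 t₀, ∀ x ∈ Y t, u x = 0) →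
      ∀ t ∈ D, ∀ x ∈ Y t, u x = 0 := by
    intro u hu t₀ ht₀ hev
    have hsub : D ⊆ {t | ∀ᶠ s in 𝓝 t, ∀ x ∈ Y s, u x = 0} := by
      refine hD.subset_of_closure_inter_subset isOpen_setOfPred_eventually_nhds ⟨t₀, ht₀, hev⟩ ?_
      rintro t ⟨ht, htD⟩
      by_cases ht' : ∀ᶠ s in 𝓝 t, ∀ x ∈ Y s, u x = 0
      · exact ht'
      · refine key hu t htD ?_
        rw [mem_closure_iff_frequently] at ht
        rw [frequently_nhdsWithin_iff]
        refine ht.mono fun s hs => ⟨hs.self_of_nhds, ?_⟩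
        rintro rfl
        exact ht' hs
    intro t ht
    exact (hsub ht).self_of_nhds
  have hD' : ∀ᶠ t in 𝓝[≠] t₁, (∀ x ∈ Y t, f x = 0) ∨ ∀ x ∈ Y t, g x = 0 := by
    filter_upwards [nhdsWithin_le_nhds (hDo.mem_nhds ht₁)] with t ht
    exact (hY t ht).2 f g hf hg fun x hx => hfg x ⟨t, ht, hx⟩
  rcases frequently_or_distrib.1 hD'.frequently with h | h
  · left; rintro x ⟨t, ht, hx⟩; exact key2 hf t₁ ht₁ (key hf t₁ ht₁ h) t ht x hx
  · right; rintro x ⟨t, ht, hx⟩; exact key2 hg t₁ ht₁ (key hg t₁ ht₁ h) t ht x hx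

end

section
variable {ι κ ι' κ' : Type}

theorem Same.refl (b : ι → κ) (x : ι → ℂ) : Same b x x :=
  ⟨fun _ => 1, fun _ => one_ne_zero, by funext i; simp [scale]⟩

theorem Same.symm {b : ι → κ} {x y : ι → ℂ} (h : Same b x y) : Same b y x := by
  obtain ⟨c, hc, rfl⟩ := h
  refine ⟨fun k => (c k)⁻¹, fun k => inv_ne_zero (hc k), ?_⟩
  funext i; simp [scale, hc]

theorem Same.trans {b : ι → κ} {x y z : ι → ℂ} (h : Same b x y) (h' : Same b y z) :
    Same b x z := by
  obtain ⟨c, hc, rfl⟩ := h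
  obtain ⟨d, hd, rfl⟩ := h'
  refine ⟨fun k => d k * c k, fun k => mul_ne_zero (hd k) (hc k), ?_⟩
  funext i; simp [scale, mul_assoc]

/-- The cone of the ambient space. -/
def cone (b : ι → κ) : Set (ι → ℂ) := {x | ∀ k, ∃ i, b i = k ∧ x i ≠ 0}

theorem Same.mem_cone {b : ι → κ} {x y : ι → ℂ} (h : Same b x y) (hx : x ∈ cone b) :
    y ∈ cone b := by
  obtain ⟨c, hc, rfl⟩ := h
  intro k
  obtain ⟨i, hi, hx⟩ := hx k
  exact ⟨i, hi, mul_ne_zero (hc _) hx⟩

theorem closed_of [Fintype ι] {b : ι → κ} {X : Set (ι → ℂ)}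
    (h1 : ∀ x ∈ X, ∀ y, Same b x y → y ∈ X) (h2 : X ⊆ cone b)
    (h3 : ∀ y ∈ cone b, (∀ f : (ι → ℂ) → ℂ, IsPoly f → (∀ x ∈ X, f x = 0) → f y = 0) → y ∈ X) :
    Closed b X := by
  refine ⟨h1, vanishingIdeal ℂ X, Set.Subset.antisymm ?_ ?_⟩
  · intro x hx
    exact ⟨h2 hx, fun P hP => hP x hx⟩
  · rintro y ⟨hy, hy'⟩
    refine h3 y hy fun f hf hX => ?_
    obtain ⟨P, hP⟩ := hf.exists_eval
    have := hy' P fun x hx => by simpa [coe_aeval_eq_eval, hP] using hX x hx
    simpa [coe_aeval_eq_eval, hP] using this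

theorem Closed.subset_cone {b : ι → κ} {X : Set (ι → ℂ)} (h : Closed b X) : X ⊆ cone b := by
  obtain ⟨-, I, rfl⟩ := h
  exact Set.inter_subset_left

theorem Closed.mem_of [Fintype ι] {b : ι → κ} {X : Set (ι → ℂ)} (h : Closed b X) {y : ι → ℂ}
    (hy : y ∈ cone b) (h3 : ∀ f : (ι → ℂ) → ℂ, IsPoly f → (∀ x ∈ X, f x = 0) → f y = 0) :
    y ∈ X := by
  obtain ⟨-, I, rfl⟩ := h
  refine ⟨hy, fun P hP => ?_⟩
  have := h3 _ (isPoly_eval P) fun x hx => by simpa [coe_aeval_eq_eval] using hx.2 P hP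
  simpa [coe_aeval_eq_eval] using this

/-- Cutting a closed set by scaling invariant polynomial equations. -/
theorem Closed.inter [Fintype ι] {b : ι → κ} {X : Set (ι → ℂ)} (h : Closed b X) {α : Type}
    {f : α → (ι → ℂ) → ℂ} (hf : ∀ a, IsPoly (f a))
    (hs : ∀ x ∈ X, ∀ y, Same b x y → (∀ a, f a x = 0) → ∀ a, f a y = 0) :
    Closed b {x ∈ X | ∀ a, f a x = 0} := by
  refine closed_of (fun x hx y hxy => ⟨h.1 x hx.1 y hxy, hs x hx.1 y hxy hx.2⟩)
    (fun x hx => h.subset_cone hx.1) fun y hy H => ⟨h.mem_of hy fun g hg hX => ?_, fun a => ?_⟩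
  · exact H g hg fun x hx => hX x hx.1
  · exact H _ (hf a) fun x hx => hx.2 a

theorem regular_of [Fintype ι] [Fintype ι'] {b : ι → κ} {b' : ι' → κ'} {U : Set (ι → ℂ)}
    {f : (ι → ℂ) → ι' → ℂ}
    (h1 : ∀ x ∈ U, ∀ y ∈ U, Same b x y → Same b' (f x) (f y))
    (h2 : ∀ x₀ ∈ U, ∃ (h : (ι → ℂ) → ℂ) (P : (ι → ℂ) → ι' → ℂ), IsPoly h ∧ IsPoly P ∧ h x₀ ≠ 0 ∧
      ∀ x ∈ U, h x ≠ 0 → Same b' (f x) (P x)) : Regular b b' U f := by
  refine ⟨h1, fun x₀ hx₀ => ?_⟩
  obtain ⟨h, P, hh, hP, h0, H⟩ := h2 x₀ hx₀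
  obtain ⟨h', hh'⟩ := hh.exists_eval
  choose P' hP' using fun j => ((isPoly_apply j).comp hP).exists_eval
  refine ⟨h', P', by rwa [hh'], fun x hx hx' => ?_⟩
  have : (fun j => eval x (P' j)) = P x := funext fun j => hP' j x
  rw [this]
  exact H x hx (by rwa [hh'] at hx')

end

end Pool.Agent.Lib.MP_1478a0_ag
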