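import Pool.Agent.Lib.MP_1478a0_ag.Poly

/-! Charts, tangent cones and residue forms. -/

namespace Pool.Agent.Lib.MP_1478a0_ag

open Filter Topology Module

section
variable {E F M N : Type} [NormedAddCommGroup E] [NormedSpace ℂ E] [NormedAddCommGroup F]
  [NormedSpace ℂ F] [NormedAddCommGroup M] [NormedSpace ℂ M] [NormedAddCommGroup N]
  [NormedSpace ℂ N]

theorem tangent_map {S : Set E} {T : Set F} {x : E} {f : E → F} {f' : E →L[ℂ] F}
    (hf : HasFDerivAt f f' x) (h : ∀ᶠ y in 𝓝 x, y ∈ S → f y ∈ T) {v : E}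
    (hv : v ∈ tangentConeAt ℂ S x) : f' v ∈ tangentConeAt ℂ T (f x) := by
  rw [← tangentConeAt_inter_nhds h] at hv
  refine tangentConeAt_mono ?_ (hf.hasFDerivWithinAt.mapsTo_tangent_cone hv)
  rintro _ ⟨y, ⟨h1, h2⟩, rfl⟩
  exact h2 h1

theorem tangent_eq {S : Set E} {x : E} (hx : x ∈ S) {f g : E → F} {f' g' : E →L[ℂ] F}
    (hf : HasFDerivAt f f' x) (hg : HasFDerivAt g g' x) (h : ∀ᶠ y in 𝓝 x, y ∈ S → f y = g y)
    {v : E} (hv : v ∈ tangentConeAt ℂ S x) : f' v = g' v := by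
  refine HasFDerivWithinAt.unique_on (f := f) hf.hasFDerivWithinAt ?_ hv
  refine hg.hasFDerivWithinAt.congr_of_eventuallyEq ?_ (h.self_of_nhds hx)
  exact eventually_nhdsWithin_iff.2 h

theorem tangent_curve {S : Set E} {γ : ℂ → E} {v : E} (hγ : HasDerivAt γ v 0)
    (h : ∀ t, γ t ∈ S) : v ∈ tangentConeAt ℂ S (γ 0) := by
  have := tangent_map (S := Set.univ) (T := S) hγ.hasFDerivAt (Eventually.of_forall fun t _ => h t)
    (v := 1) (by simp)
  simpa using this

theorem exists_equiv [FiniteDimensional ℂ E] [FiniteDimensional ℂ F] (L : E →L[ℂ] F)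
    (hL : Function.Injective L) (hd : finrank ℂ E = finrank ℂ F) :
    ∃ e : E ≃L[ℂ] F, (e : E →L[ℂ] F) = L :=
  ⟨(LinearEquiv.ofBijective (L : E →ₗ[ℂ] F)
    ⟨hL, (LinearMap.injective_iff_surjective_of_finrank_eq_finrank hd).1 hL⟩).toContinuousLinearEquiv,
    by ext; rfl⟩

theorem local_inverse [FiniteDimensional ℂ E] [FiniteDimensional ℂ F] {G : E → F} {x : E}
    (hG : AnalyticAt ℂ G x) (hL : Function.Injective (fderiv ℂ G x))
    (hd : finrank ℂ E = finrank ℂ F) :
    ∃ σ : F → E, AnalyticAt ℂ σ (G x) ∧ (∀ᶠ y in 𝓝 x, σ (G y) = y) ∧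
      ∀ᶠ w in 𝓝 (G x), G (σ w) = w := by
  have := FiniteDimensional.complete ℂ E
  have := FiniteDimensional.complete ℂ F
  obtain ⟨e, he⟩ := exists_equiv _ hL hd
  have h1 : ContDiffAt ℂ ⊤ G x := hG.contDiffAt
  have h2 : HasFDerivAt G (e : E →L[ℂ] F) x := he ▸ hG.differentiableAt.hasFDerivAt
  have hn : (⊤ : WithTop ℕ∞) ≠ 0 := by simp
  exact ⟨h1.localInverse h2 hn, (h1.to_localInverse h2 hn).analyticAt,
    (h1.hasStrictFDerivAt' h2 hn).eventually_left_inverse,
    (h1.hasStrictFDerivAt' h2 hn).eventually_right_inverse⟩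

/-- A holomorphic chart of `X` at `x` with model space `M`. -/
def Chart (M : Type) [NormedAddCommGroup M] [NormedSpace ℂ M] (X : Set E) (x : E) : Prop :=
  ∃ (θ : M → E) (ρ : E → M), AnalyticAt ℂ θ (ρ x) ∧ AnalyticAt ℂ ρ x ∧ θ (ρ x) = x ∧
    (∀ᶠ u in 𝓝 (ρ x), ρ (θ u) = u) ∧ ∀ᶠ y in 𝓝 x, y ∈ X ↔ θ (ρ y) = y

theorem chart_of_eqs [FiniteDimensional ℂ E] [FiniteDimensional ℂ N] {X : Set E} {x : E}
    {f : E → N} (hf : AnalyticAt ℂ f x) (hs : Function.Surjective (fderiv ℂ f x)) (hx : f x = 0)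
    (hX : ∀ᶠ y in 𝓝 x, y ∈ X ↔ f y = 0) :
    Chart (LinearMap.ker (fderiv ℂ f x : E →ₗ[ℂ] N)) X x ∧
      finrank ℂ (LinearMap.ker (fderiv ℂ f x : E →ₗ[ℂ] N)) + finrank ℂ N = finrank ℂ E ∧
      ∀ v, fderiv ℂ f x v = 0 → v ∈ tangentConeAt ℂ X x := by
  set K := LinearMap.ker (fderiv ℂ f x : E →ₗ[ℂ] N) with hK
  have hdim : finrank ℂ K + finrank ℂ N = finrank ℂ E := by
    have := LinearMap.finrank_range_add_finrank_ker (fderiv ℂ f x : E →ₗ[ℂ] N)
    rw [LinearMap.range_eq_top.2 hs, finrank_top, add_comm] at this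
    exact this
  obtain ⟨K', hK'⟩ := K.exists_isCompl
  set A : E →L[ℂ] K := LinearMap.toContinuousLinearMap (K.projectionOnto K' hK') with hA
  have hAv : ∀ v : K, A v = v := fun v => Submodule.projectionOnto_apply_left hK' v
  have hG : AnalyticAt ℂ (fun y => (A y, f y)) x := (A.analyticAt x).prod hf
  have hG' : HasFDerivAt (fun y => (A y, f y)) (A.prod (fderiv ℂ f x)) x :=
    A.hasFDerivAt.prodMk hf.differentiableAt.hasFDerivAt
  have hinj : Function.Injective (A.prod (fderiv ℂ f x)) := by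
    rw [injective_iff_map_eq_zero]
    intro v hv
    simp only [ContinuousLinearMap.prod_apply, Prod.mk_eq_zero] at hv
    exact congrArg Subtype.val ((hAv ⟨v, hv.2⟩).symm.trans hv.1)
  obtain ⟨σ, hσ, h1, h2⟩ := local_inverse hG (by rwa [hG'.fderiv])
    (by rw [finrank_prod, hdim])
  simp only [hx] at hσ h2
  have hθ : AnalyticAt ℂ (fun u : K => σ (u, 0)) (A x) :=
    hσ.comp_of_eq (analyticAt_id.prod analyticAt_const) rfl
  have h0 : σ (A x, 0) = x := by simpa [hx] using h1.self_of_nhds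
  have ht : Tendsto (fun u : K => (u, (0 : N))) (𝓝 (A x)) (𝓝 (A x, 0)) :=
    (continuous_id.prodMk continuous_const).continuousAt
  have h3 : ∀ᶠ u : K in 𝓝 (A x), A (σ (u, 0)) = u ∧ f (σ (u, 0)) = 0 :=
    (ht.eventually h2).mono fun u hu => Prod.mk.inj hu
  refine ⟨⟨fun u => σ (u, 0), A, hθ, A.analyticAt x, h0, h3.mono fun u hu => hu.1, ?_⟩, hdim, ?_⟩
  · filter_upwards [hX, h1, A.continuous.continuousAt.eventually h3] with y k1 k2 k3
    rw [k1]
    constructor
    · intro h; rw [← h]; exact k2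
    · intro h; rw [← h]; exact k3.2
  · intro v hv
    have hd := hθ.differentiableAt.hasFDerivAt
    have k1 := tangent_map (S := Set.univ) (T := X) hd (v := ⟨v, hv⟩) (by
      have : Tendsto (fun u : K => σ (u, 0)) (𝓝 (A x)) (𝓝 x) := by
        simpa only [ContinuousAt, h0] using hθ.continuousAt
      filter_upwards [h3, this.eventually hX] with u k1 k2 _
      exact k2.2 k1.2) (by simp)
    rw [h0] at k1
    suffices fderiv ℂ (fun u : K => σ (u, 0)) (A x) ⟨v, hv⟩ = v by rwa [this] at k1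
    apply hinj
    have k2 : HasFDerivAt (fun u : K => (A (σ (u, 0)), f (σ (u, 0))))
        ((A.prod (fderiv ℂ f x)).comp (fderiv ℂ (fun u : K => σ (u, 0)) (A x))) (A x) :=
      HasFDerivAt.comp (A x) (g := fun y => (A y, f y)) (by rw [h0]; exact hG') hd
    have k3 : HasFDerivAt (fun u : K => (A (σ (u, 0)), f (σ (u, 0))))
        (ContinuousLinearMap.inl ℂ K N) (A x) :=
      (ContinuousLinearMap.inl ℂ K N).hasFDerivAt.congr_of_eventuallyEq
        (h3.mono fun u hu => by simp [hu.1, hu.2])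
    have k4 := congrArg (fun L => L ⟨v, hv⟩) (k2.unique k3)
    simp only [ContinuousLinearMap.comp_apply, ContinuousLinearMap.inl_apply] at k4
    rw [k4]
    exact Prod.ext (hAv ⟨v, hv⟩).symm hv.symm

theorem Chart.transfer {Z : Set E} {X : Set F} {z : E} (h : Chart M Z z) {φ : E → F} {ψ : F → E}
    (hφ : AnalyticAt ℂ φ z) (hψ : AnalyticAt ℂ ψ (φ z)) (h0 : ψ (φ z) = z)
    (h1 : ∀ᶠ w in 𝓝 z, w ∈ Z → ψ (φ w) = w ∧ φ w ∈ X)
    (h2 : ∀ᶠ y in 𝓝 (φ z), y ∈ X → ψ y ∈ Z ∧ φ (ψ y) = y) : Chart M X (φ z) := by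
  obtain ⟨θ, ρ, hθ, hρ, k0, k1, k2⟩ := h
  have tθ : Tendsto θ (𝓝 (ρ z)) (𝓝 z) := by simpa only [ContinuousAt, k0] using hθ.continuousAt
  have tψ : Tendsto ψ (𝓝 (φ z)) (𝓝 z) := by simpa only [ContinuousAt, h0] using hψ.continuousAt
  have k3 : ∀ᶠ u in 𝓝 (ρ z), θ u ∈ Z ∧ ψ (φ (θ u)) = θ u ∧ φ (θ u) ∈ X := by
    filter_upwards [k1, tθ.eventually k2, tθ.eventually h1] with u a1 a2 a3
    have : θ u ∈ Z := a2.2 (by rw [a1])
    exact ⟨this, a3 this⟩
  refine ⟨fun u => φ (θ u), fun y => ρ (ψ y), ?_, ?_, ?_, ?_, ?_⟩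
  · simp only [h0]; exact hφ.comp_of_eq hθ k0
  · exact hρ.comp_of_eq hψ h0
  · simp only [h0, k0]
  · simp only [h0]
    filter_upwards [k1, k3] with u a1 a2
    rw [a2.2.1, a1]
  · filter_upwards [h2, tψ.eventually k2, (hρ.continuousAt.tendsto.comp tψ).eventually k3]
      with y a1 a2 a3
    constructor
    · intro hy; rw [a2.1 (a1 hy).1, (a1 hy).2]
    · intro hy; rw [← hy]; exact a3.2.2

theorem Chart.smoothAt [FiniteDimensional ℂ M] {ι : Type} [Fintype ι] {X : Set (ι → ℂ)}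
    {x : ι → ℂ} (h : Chart M X x) : SmoothAt X x (finrank ℂ M) := by
  obtain ⟨θ, ρ, hθ, hρ, k0, k1, k2⟩ := h
  have dθ := hθ.differentiableAt.hasFDerivAt
  have dρ := hρ.differentiableAt.hasFDerivAt
  set Tθ := fderiv ℂ θ (ρ x)
  set Tρ := fderiv ℂ ρ x
  have hid : ∀ u, Tρ (Tθ u) = u := by
    have a1 : HasFDerivAt (fun u => ρ (θ u)) (Tρ.comp Tθ) (ρ x) :=
      HasFDerivAt.comp (ρ x) (g := ρ) (by rw [k0]; exact dρ) dθ
    have a2 : HasFDerivAt (fun u => ρ (θ u)) (ContinuousLinearMap.id ℂ M) (ρ x) :=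
      (hasFDerivAt_id _).congr_of_eventuallyEq k1
    intro u
    exact congrArg (fun L => L u) (a1.unique a2)
  set K := LinearMap.range (Tθ : M →ₗ[ℂ] ι → ℂ)
  have hK : finrank ℂ K = finrank ℂ M :=
    LinearMap.finrank_range_of_inj (Function.LeftInverse.injective hid)
  set c := finrank ℂ ((ι → ℂ) ⧸ K)
  have hc : finrank ℂ M + c = Fintype.card ι := by
    have := K.finrank_quotient_add_finrank
    rw [hK, finrank_fintype_fun_eq_card] at this
    omega
  set e : ((ι → ℂ) ⧸ K) ≃ₗ[ℂ] (Fin c → ℂ) := LinearEquiv.ofFinrankEq _ _ (by simp [c])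
  set Q : (ι → ℂ) →L[ℂ] (Fin c → ℂ) := LinearMap.toContinuousLinearMap (e.toLinearMap ∘ₗ K.mkQ)
  have hQ : ∀ v, Q v = 0 ↔ v ∈ K := fun v => by simp [Q]
  have hQs : Function.Surjective Q := e.surjective.comp K.mkQ_surjective
  have hF : AnalyticAt ℂ (fun y => Q (y - θ (ρ y))) x :=
    (Q.analyticAt _).comp (analyticAt_id.sub (hθ.comp hρ))
  have dF : HasFDerivAt (fun y => Q (y - θ (ρ y))) Q x := by
    have a1 : HasFDerivAt (fun y => Q (y - θ (ρ y)))
        (Q.comp (ContinuousLinearMap.id ℂ _ - Tθ.comp Tρ)) x :=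
      Q.hasFDerivAt.comp x ((hasFDerivAt_id x).sub (dθ.comp x dρ))
    refine a1.congr_fderiv ?_
    ext1 v
    have : Q (Tθ (Tρ v)) = 0 := (hQ _).2 ⟨_, rfl⟩
    simp [this]
  refine ⟨c, fun y => Q (y - θ (ρ y)), hc, hF, by rw [dF.fderiv]; exact hQs, ?_⟩
  obtain ⟨σ, -, h1, -⟩ := local_inverse (hρ.prod hF) (by
      rw [(dρ.prodMk dF).fderiv, injective_iff_map_eq_zero]
      intro v hv
      simp only [ContinuousLinearMap.prod_apply, Prod.mk_eq_zero] at hv
      obtain ⟨u, rfl⟩ := (hQ v).1 hv.2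
      have : u = 0 := (hid u).symm.trans hv.1
      simp [this])
    (by rw [finrank_prod, finrank_fintype_fun_eq_card, finrank_fintype_fun_eq_card, ← hc]; simp)
  have t1 : Tendsto (fun y => θ (ρ y)) (𝓝 x) (𝓝 x) := by
    simpa only [ContinuousAt, Function.comp_def, k0] using (hθ.comp hρ).continuousAt
  filter_upwards [k2, h1, t1.eventually h1, hρ.continuousAt.eventually k1] with y a1 a2 a3 a4
  rw [a1]
  constructor
  · intro h; rw [h, sub_self, map_zero]
  · intro h
    rw [a4, sub_self, map_zero] at a3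
    rw [h] at a2
    exact a3.symm.trans a2

end

section
open Matrix

variable {m η ν : Type} [Fintype m] [Fintype η] [Fintype ν] [DecidableEq m] [DecidableEq η]
  [DecidableEq ν]

omit [DecidableEq m] [DecidableEq η] [DecidableEq ν] in
theorem exists_ext (e : ν ⊕ η ≃ m) {u : η → m → ℂ} (hu : LinearIndependent ℂ u) :
    ∃ v : ν → m → ℂ, LinearIndependent ℂ (Sum.elim v u) := by
  obtain ⟨W, hW⟩ := (Submodule.span ℂ (Set.range u)).exists_isCompl
  have hd : finrank ℂ W = Fintype.card ν := by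
    have := Submodule.finrank_add_eq_of_isCompl hW
    rw [finrank_span_eq_card hu, finrank_fintype_fun_eq_card, ← Fintype.card_congr e,
      Fintype.card_sum] at this
    omega
  set b := (Module.finBasisOfFinrankEq ℂ W hd).reindex (Fintype.equivFin ν).symm
  refine ⟨fun i => b i, LinearIndependent.sum_type
    (b.linearIndependent.map' W.subtype W.ker_subtype) hu ?_⟩
  refine hW.symm.disjoint.mono_left ?_
  rw [Submodule.span_le]
  rintro _ ⟨i, rfl⟩
  exact (b i).2

/-- The determinant of the matrix with rows those of `A` and of `J`. -/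
noncomputable def dl (e : ν ⊕ η ≃ m) (A : Matrix ν m ℂ) (J : Matrix η m ℂ) : ℂ :=
  ((fromRows A J).submatrix id e).det

omit [DecidableEq m] in
theorem exists_dl (e : ν ⊕ η ≃ m) {J : Matrix η m ℂ} (hJ : LinearIndependent ℂ J.row) :
    ∃ A, dl e A J ≠ 0 := by
  obtain ⟨v, hv⟩ := exists_ext e hJ
  refine ⟨of v, ?_⟩
  have : LinearIndependent ℂ ((fromRows (of v) J).submatrix id e).row := by
    have h := hv.map' (LinearEquiv.funCongrLeft ℂ ℂ e).toLinearMap (LinearEquiv.ker _)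
    have e1 : ((fromRows (of v) J).submatrix id e).row =
        (LinearEquiv.funCongrLeft ℂ ℂ e).toLinearMap ∘ Sum.elim v J.row := by
      funext i j; rcases i with i | i <;> rfl
    rwa [e1]
  exact ((isUnit_iff_isUnit_det _).1 (linearIndependent_rows_iff_isUnit.1 this)).ne_zero

omit [DecidableEq m] in
theorem dl_mul (e : ν ⊕ η ≃ m) (A : Matrix ν m ℂ) (J : Matrix η m ℂ) (B : Matrix m (ν ⊕ η) ℂ) :
    dl e A J * (B.submatrix e id).det = (fromRows A J * B).det := by
  rw [dl, ← det_mul, submatrix_mul_equiv]; rfl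

omit [DecidableEq m] in
theorem exists_right_inv (e : ν ⊕ η ≃ m) {A : Matrix ν m ℂ} {J : Matrix η m ℂ}
    (h : dl e A J ≠ 0) : ∃ B : Matrix m (ν ⊕ η) ℂ, fromRows A J * B = 1 := by
  refine ⟨(((fromRows A J).submatrix id e)⁻¹).submatrix e.symm id, ?_⟩
  have := mul_nonsing_inv _ (IsUnit.mk0 _ h)
  rw [← this]
  have h2 := submatrix_mul_equiv ((fromRows A J).submatrix id e)
    ((fromRows A J).submatrix id e)⁻¹ id e.symm id
  simpa using h2

omit [DecidableEq m] in
theorem dl_indep (e : ν ⊕ η ≃ m) {A A' : Matrix ν m ℂ} {J : Matrix η m ℂ} (h : dl e A J ≠ 0)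
    (h' : dl e A' J ≠ 0) {V : Matrix ν m ℂ} (hV : ∀ j, J *ᵥ V j = 0) :
    (V * Aᵀ).det / dl e A J = (V * A'ᵀ).det / dl e A' J := by
  obtain ⟨B, hB⟩ := exists_right_inv e h
  have hW : J * B.toCols₂ = 1 := by
    rw [← fromCols_toCols B, fromRows_mul_fromCols, ← fromBlocks_one] at hB
    exact (fromBlocks_inj.1 hB).2.2.2
  have hJV : J * Vᵀ = 0 := by
    ext i j; exact congrFun (hV j) i
  have key : ∀ A'' : Matrix ν m ℂ, (V * A''ᵀ).det
      = dl e A'' J * ((fromCols Vᵀ B.toCols₂).submatrix e id).det := by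
    intro A''
    rw [dl_mul, fromRows_mul_fromCols, hJV, hW, det_fromBlocks_zero₂₁, det_one, mul_one,
      ← det_transpose, transpose_mul, transpose_transpose]
  rw [key, key]; field_simp

theorem dl_scale (e : ν ⊕ η ≃ m) (A : Matrix ν m ℂ) {J J' : Matrix η m ℂ} {d : m → ℂ} {d' : η → ℂ}
    (h : J' * diagonal d = diagonal d' * J) :
    (∏ i, d' i) * dl e (A * diagonal d) J = dl e A J' * ∏ i, d i := by
  have h1 : (fromRows A J').submatrix id e * (diagonal d).submatrix e e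
      = fromBlocks 1 0 0 (diagonal d') * (fromRows (A * diagonal d) J).submatrix id e := by
    rw [submatrix_mul_equiv, fromRows_mul, h]
    have : (fromBlocks 1 0 0 (diagonal d') : Matrix (ν ⊕ η) (ν ⊕ η) ℂ)
        = (fromBlocks 1 0 0 (diagonal d')).submatrix id (Equiv.refl _) := rfl
    rw [this, show (fromRows (A * diagonal d) J).submatrix id e
      = (fromRows (A * diagonal d) J).submatrix (Equiv.refl _) e from rfl, submatrix_mul_equiv,
      fromBlocks_mul_fromRows]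
    simp
  have h2 := congrArg det h1
  rw [det_mul, det_mul, det_submatrix_equiv_self, det_diagonal, det_fromBlocks_zero₂₁, det_one,
    det_diagonal, one_mul] at h2
  exact h2.symm

omit [DecidableEq m] in
theorem exists_solve (e : ν ⊕ η ≃ m) {A : Matrix ν m ℂ} {J : Matrix η m ℂ} (h : dl e A J ≠ 0)
    (y : ν → ℂ) (y' : η → ℂ) : ∃ v, A *ᵥ v = y ∧ J *ᵥ v = y' := by
  obtain ⟨B, hB⟩ := exists_right_inv e h
  refine ⟨B *ᵥ Sum.elim y y', ?_⟩
  have : fromRows A J *ᵥ (B *ᵥ Sum.elim y y') = Sum.elim y y' := by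
    rw [mulVec_mulVec, hB, one_mulVec]
  rw [fromRows_mulVec] at this
  exact ⟨funext fun i => congrFun this (Sum.inl i), funext fun i => congrFun this (Sum.inr i)⟩

omit [DecidableEq m] in
theorem inj_of_dl (e : ν ⊕ η ≃ m) {A : Matrix ν m ℂ} {J : Matrix η m ℂ} (h : dl e A J ≠ 0)
    {v : m → ℂ} (h1 : A *ᵥ v = 0) (h2 : J *ᵥ v = 0) : v = 0 := by
  have h3 : (fromRows A J).submatrix id e *ᵥ (v ∘ e) = 0 := by
    rw [submatrix_mulVec_equiv]
    have : (v ∘ e) ∘ e.symm = v := by funext i; simp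
    rw [this, fromRows_mulVec, h1, h2]
    funext i; rcases i with i | i <;> rfl
  have h4 := eq_zero_of_mulVec_eq_zero h h3
  funext i
  simpa using congrFun h4 (e.symm i)

/-- Fixing some of the arguments of an alternating form. -/
def fixRight {α β V : Type} [DecidableEq β] [AddCommGroup V] [Module ℂ V]
    (D : V [⋀^(α ⊕ β)]→ₗ[ℂ] ℂ) (w : β → V) : V [⋀^α]→ₗ[ℂ] ℂ where
  toFun v := D (Sum.elim v w)
  map_update_add' v i x y := by simp only [Sum.elim_update_left, D.map_update_add]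
  map_update_smul' v i c x := by simp only [Sum.elim_update_left, D.map_update_smul]
  map_eq_zero_of_eq' v i j h hij :=
    D.map_eq_zero_of_eq (Sum.elim v w) (i := Sum.inl i) (j := Sum.inl j) h (by simpa using hij)

omit [DecidableEq m] in
theorem exists_numF {α β : Type} [Fintype α] [Fintype β] [DecidableEq α] [DecidableEq β]
    (A : Matrix (α ⊕ β) m ℂ) (w : β → m → ℂ) : ∃ N : (m → ℂ) [⋀^α]→ₗ[ℂ] ℂ,
      ∀ v, N v = (of (Sum.elim v w) * Aᵀ).det := by
  refine ⟨fixRight (detRowAlternating.compLinearMap A.mulVecLin) w, fun v => ?_⟩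
  change (of fun i => A *ᵥ Sum.elim v w i).det = _
  congr 1
  ext i j
  simp [mul_apply, mulVec, dotProduct, mul_comm]

/-- The numerator of a residue form. -/
noncomputable def numF {α β : Type} [Fintype α] [Fintype β] [DecidableEq α] [DecidableEq β]
    (A : Matrix (α ⊕ β) m ℂ) (w : β → m → ℂ) : (m → ℂ) [⋀^α]→ₗ[ℂ] ℂ :=
  Classical.choose (exists_numF A w)

omit [DecidableEq m] in
theorem numF_apply {α β : Type} [Fintype α] [Fintype β] [DecidableEq α] [DecidableEq β]
    (A : Matrix (α ⊕ β) m ℂ) (w : β → m → ℂ) (v : α → m → ℂ) :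
    numF A w v = (of (Sum.elim v w) * Aᵀ).det :=
  Classical.choose_spec (exists_numF A w) v

omit [DecidableEq m] in
theorem numF_indep {α β : Type} [Fintype α] [Fintype β] [DecidableEq α] [DecidableEq β]
    (e : (α ⊕ β) ⊕ η ≃ m) {A A' : Matrix (α ⊕ β) m ℂ} {J : Matrix η m ℂ} (h : dl e A J ≠ 0)
    (h' : dl e A' J ≠ 0) {w : β → m → ℂ} {v : α → m → ℂ} (hv : ∀ j, J *ᵥ v j = 0)
    (hw : ∀ j, J *ᵥ w j = 0) : numF A w v / dl e A J = numF A' w v / dl e A' J := by
  rw [numF_apply, numF_apply]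
  refine dl_indep e h h' ?_
  rintro (j | k)
  · exact hv j
  · exact hw k

omit [DecidableEq m] in
theorem numF_vertical {α β : Type} [Fintype α] [Fintype β] [DecidableEq α] [DecidableEq β]
    (A : Matrix (α ⊕ β) m ℂ) (w : β → m → ℂ) (u : α → m → ℂ)
    (j) (c : β → ℂ) (h : u j = ∑ k, c k • w k) : numF A w u = 0 := by
  rw [← Function.update_eq_self j u, h, AlternatingMap.map_update_sum]
  refine Finset.sum_eq_zero fun k _ => ?_
  rw [AlternatingMap.map_update_smul]
  have : numF A w (Function.update u j (w k)) = 0 := by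
    rw [numF_apply]
    refine det_zero_of_row_eq (i := Sum.inl j) (j := Sum.inr k) (by simp) ?_
    funext l
    simp only [mul_apply, of_apply, Sum.elim_inl, Sum.elim_inr, Function.update_self]
  rw [this, smul_zero]

omit [DecidableEq m] in
theorem numF_ne {α β : Type} [Fintype α] [Fintype β] [DecidableEq α] [DecidableEq β]
    (A : Matrix (α ⊕ β) m ℂ) (w : β → m → ℂ) (u : α → m → ℂ)
    (h : LinearIndependent ℂ (Sum.elim (fun j => A *ᵥ u j) fun k => A *ᵥ w k)) :
    numF A w u ≠ 0 := by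
  rw [numF_apply]
  refine ((isUnit_iff_isUnit_det _).1 (linearIndependent_rows_iff_isUnit.1 ?_)).ne_zero
  have : (of (Sum.elim u w) * Aᵀ).row = Sum.elim (fun j => A *ᵥ u j) fun k => A *ᵥ w k := by
    funext r l
    rcases r with r | r <;> simp [mul_apply, mulVec, dotProduct, mul_comm, row]
  rwa [this]

theorem numF_diag {α β : Type} [Fintype α] [Fintype β] [DecidableEq α] [DecidableEq β]
    (A : Matrix (α ⊕ β) m ℂ) (w : β → m → ℂ) (u : α → m → ℂ) (d : m → ℂ) :
    numF A (fun k l => d l * w k l) (fun j l => d l * u j l) = numF (A * diagonal d) w u := by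
  rw [numF_apply, numF_apply, transpose_mul, diagonal_transpose, ← Matrix.mul_assoc]
  congr 2
  ext j l
  rw [mul_diagonal]
  rcases j with j | k <;> exact mul_comm _ _

omit [Fintype m] [DecidableEq m] in
theorem analyticAt_det {E : Type} [NormedAddCommGroup E] [NormedSpace ℂ E] {x : E}
    {B : E → Matrix ν ν ℂ} (h : ∀ i j, AnalyticAt ℂ (fun y => B y i j) x) :
    AnalyticAt ℂ (fun y => (B y).det) x := by
  simp only [det_apply']
  exact Finset.analyticAt_fun_sum _ fun σ _ =>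
    analyticAt_const.mul (Finset.analyticAt_fun_prod _ fun i _ => h _ _)

omit [DecidableEq m] in
theorem analyticAt_numF {α β : Type} [Fintype α] [Fintype β] [DecidableEq α] [DecidableEq β]
    {E : Type} [NormedAddCommGroup E] [NormedSpace ℂ E] {x : E} (A : Matrix (α ⊕ β) m ℂ)
    {w : E → β → m → ℂ} {u : E → α → m → ℂ} (hw : ∀ k l, AnalyticAt ℂ (fun y => w y k l) x)
    (hu : ∀ k l, AnalyticAt ℂ (fun y => u y k l) x) :
    AnalyticAt ℂ (fun y => numF A (w y) (u y)) x := by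
  simp only [numF_apply]
  refine analyticAt_det fun r j => ?_
  simp only [mul_apply]
  refine Finset.analyticAt_fun_sum _ fun l _ => AnalyticAt.mul ?_ analyticAt_const
  rcases r with r | k
  · exact hu r l
  · exact hw k l

omit [Fintype m] [DecidableEq m] in
theorem analyticAt_dl {E : Type} [NormedAddCommGroup E] [NormedSpace ℂ E] {x : E}
    (e : ν ⊕ η ≃ m) (A : Matrix ν m ℂ) {J : E → Matrix η m ℂ}
    (hJ : ∀ r j, AnalyticAt ℂ (fun y => J y r j) x) : AnalyticAt ℂ (fun y => dl e A (J y)) x := by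
  refine analyticAt_det ?_
  rintro (r | r) j
  · exact analyticAt_const
  · exact hJ r _

end

end Pool.Agent.Lib.MP_1478a0_ag
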